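import Mathlib
import Pool.Agent.H391.AE.S2

/-!
# AE2-P: pointwise bound with decay in n independent directions (helper120, for helper391)
-/

set_option autoImplicit false

open Finset
open scoped InnerProductSpace

namespace H391.AE.Q_P

variable {n : ℕ}

theorem inv_apply (w : V n ≃ₗᵢ[ℝ] V n) (x : V n) : w (w⁻¹ x) = x := by
  have : (w * w⁻¹) x = x := by
    rw [mul_inv_cancel]
    rfl
  exact this

theorem ip_inv (w : V n ≃ₗᵢ[ℝ] V n) (α x : V n) : (inner ℝ) α (w⁻¹ x) = (inner ℝ) (w α) x := by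
  rw [← w.inner_map_map, inv_apply]

theorem cp_inv (w : V n ≃ₗᵢ[ℝ] V n) (α : V n) (z : V n × V n) :
    cp α (w⁻¹ z.1, w⁻¹ z.2) = cp (w α) z := by
  unfold cp
  simp only [ip_inv]

theorem cp_real (α b : V n) : cp α (b, 0) = (((inner ℝ) α b : ℝ) : ℂ) := by
  unfold cp
  simp

theorem norm_cp_real (α b : V n) : ‖cp α (b, 0)‖ = |(inner ℝ) α b| := by
  rw [cp_real, Complex.norm_real, Real.norm_eq_abs]

theorem cp_shift (β : V n) (z : V n × V n) (v : V n) (ζ : ℂ) :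
    cp β (shift z v ζ) = cp β z + ζ * (((inner ℝ) β v : ℝ) : ℂ) := by
  have h := Complex.re_add_im ζ
  calc cp β (shift z v ζ) = cp β z + ((ζ.re : ℂ) + (ζ.im : ℂ) * Complex.I) * (((inner ℝ) β v : ℝ) : ℂ) := by
        unfold cp shift
        simp only [inner_add_right, inner_smul_right]
        push_cast
        ring
    _ = _ := by rw [h]

theorem prod_low2 (R Φ B : Finset (V n)) (hΦ : Φ ⊆ R) (f h : V n → ℝ) (κ : ℝ) (hκ : 0 ≤ κ)
    (hκ1 : κ ≤ 1) (hf : ∀ α ∈ R, α ∉ Φ → κ ≤ f α) (hf0 : ∀ α ∈ R, 0 ≤ f α)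
    (hB : ∀ α ∈ B, α ∈ R ∧ α ∉ Φ) (hB' : ∀ α ∈ B, -α ∈ R ∧ -α ∉ Φ) (hdis : ∀ α ∈ B, -α ∉ B)
    (hh0 : ∀ α ∈ B, 0 ≤ h α) (hh : ∀ α ∈ B, h α ≤ f α * f (-α)) :
    κ ^ R.card * (∏ α ∈ B, h α) * ∏ α ∈ Φ, f α ≤ ∏ α ∈ R, f α := by
  classical
  have hd : Disjoint B (B.image fun α => -α) := by
    rw [Finset.disjoint_left]
    intro x hx hx'
    obtain ⟨y, hy, hyx⟩ := Finset.mem_image.1 hx'
    rw [← hyx] at hx
    exact hdis y hy hx
  have h2 : B ∪ (B.image fun α => -α) ⊆ R \ Φ := by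
    intro x hx
    rw [mem_sdiff]
    rcases Finset.mem_union.1 hx with hx | hx
    · exact hB x hx
    · obtain ⟨y, hy, rfl⟩ := Finset.mem_image.1 hx
      exact hB' y hy
  have h6 : ∀ α ∈ (R \ Φ) \ (B ∪ (B.image fun α => -α)), κ ≤ f α := by
    intro α hα
    have h7 := (mem_sdiff.1 (mem_sdiff.1 hα).1)
    exact hf α h7.1 h7.2
  rw [← Finset.prod_sdiff hΦ, ← Finset.prod_sdiff h2, Finset.prod_union hd,
    Finset.prod_image (fun x _ y _ hxy => neg_injective hxy), ← Finset.prod_mul_distrib]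
  have h3 : κ ^ R.card ≤ ∏ α ∈ (R \ Φ) \ (B ∪ (B.image fun α => -α)), f α := by
    calc κ ^ R.card ≤ κ ^ ((R \ Φ) \ (B ∪ (B.image fun α => -α))).card :=
          pow_le_pow_of_le_one hκ hκ1 (card_le_card (sdiff_subset.trans sdiff_subset))
      _ = ∏ _α ∈ (R \ Φ) \ (B ∪ (B.image fun α => -α)), κ := (prod_const _).symm
      _ ≤ _ := prod_le_prod (fun _ _ => hκ) h6
  have h4 : ∏ α ∈ B, h α ≤ ∏ α ∈ B, (f α * f (-α)) := prod_le_prod hh0 hh
  have h5 : 0 ≤ ∏ α ∈ Φ, f α := prod_nonneg fun α hα => hf0 α (hΦ hα)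
  refine mul_le_mul_of_nonneg_right (mul_le_mul h3 h4 (prod_nonneg hh0) ?_) h5
  exact prod_nonneg fun α hα => hκ.trans (h6 α hα)

theorem exB (R Φ : Finset (V n)) (h : Submodule.span ℝ {α : V n | α ∈ R ∧ α ∉ Φ} = ⊤) :
    ∃ B : Finset (V n), (∀ α ∈ B, α ∈ R ∧ α ∉ Φ) ∧ B.card = n ∧
      LinearIndependent ℝ (fun x : {x // x ∈ B} => (x : V n)) := by
  obtain ⟨s, hs, hsp, hli⟩ := exists_linearIndependent ℝ {α : V n | α ∈ R ∧ α ∉ Φ}
  have hfin : s.Finite := (R.finite_toSet).subset (fun x hx => (hs hx).1)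
  lift s to Finset (V n) using hfin
  refine ⟨s, fun α hα => hs hα, ?_, hli⟩
  have h1 := finrank_span_finset_eq_card (R := ℝ) (s := s) hli
  rw [hsp, h, finrank_top, finrank_euclideanSpace_fin] at h1
  exact h1.symm

theorem main : S_W → S_alt → S_ld → S_F1 → S_sub → S_comp → S_cl → S_sp → S_P := by
  classical
  intro hW hAlt hLd hF1 hSub hComp hCl hSp n R hR
  have hRS : IsRS R := hR.toIsRS
  obtain ⟨hWf, hWR, -, -, hneg, -, -, -, hprod⟩ := hW n R hRS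
  obtain ⟨ε, hε, hcomp⟩ := hComp n R hRS
  obtain ⟨c, C0, hc, hC0, hcl⟩ := hCl n R hRS
  -- a uniform constant for the subsystems
  choose CF hCF0 hCF using hF1 n
  set C1 : ℝ := ∑ Φ ∈ R.powerset, (if h : IsRS Φ then CF Φ h else 0) with hC1
  have hnn : ∀ Φ : Finset (V n), 0 ≤ (if h : IsRS Φ then CF Φ h else 0) := by
    intro Φ
    split_ifs with h
    · exact hCF0 Φ h
    · exact le_rfl
  have hC1nn : 0 ≤ C1 := sum_nonneg fun Φ _ => hnn Φ
  have hle : ∀ Φ ⊆ R, ∀ h : IsRS Φ, CF Φ h ≤ C1 := by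
    intro Φ hΦ h
    have h1 := Finset.single_le_sum (f := fun Φ => if h : IsRS Φ then CF Φ h else 0)
      (fun Φ _ => hnn Φ) (Finset.mem_powerset.2 hΦ)
    have h2 : (if h : IsRS Φ then CF Φ h else 0) = CF Φ h := dif_pos h
    rw [← h2]
    exact h1
  have hF : ∀ Φ ⊆ R, IsRS Φ → ∀ (a : V n) (z : V n × V n), ‖E Φ a z‖ ^ 2 ≤
      C1 * (∏ α ∈ Φ, (|(inner ℝ) α a| * ‖cp α z‖)) * Real.exp (C1 * (‖a‖ * ‖z.2‖)) := by
    intro Φ hΦ h a z
    refine (hCF Φ h a z).trans ?_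
    have h1 := hle Φ hΦ h
    have h2 : 0 ≤ ∏ α ∈ Φ, (|(inner ℝ) α a| * ‖cp α z‖) := prod_nonneg fun _ _ => by positivity
    have h3 : 0 ≤ ‖a‖ * ‖z.2‖ := by positivity
    refine mul_le_mul (mul_le_mul_of_nonneg_right h1 h2)
      (Real.exp_le_exp.2 (mul_le_mul_of_nonneg_right h1 h3)) (Real.exp_pos _).le
      (mul_nonneg hC1nn h2)
  set κ : ℝ := min 1 (ε * c) with hκ
  have hκ0 : 0 < κ := lt_min one_pos (mul_pos hε hc)
  set K3 : ℝ := 1 / c ^ 2 + (1 + 4 * C0 / c) ^ 2 with hK3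
  have hK30 : 0 < K3 := by positivity
  set Q : ℝ := κ ^ R.card * (ε ^ 2 / K3) ^ n with hQ
  have hQ0 : 0 < Q := by positivity
  set Wc : ℝ := ((Wf R).card : ℝ) with hWc
  set X : ℝ := Real.exp (C1 * (2 * C0)) with hX
  have hX0 : 0 < X := Real.exp_pos _
  refine ⟨Wc ^ 2 * C1 * X / Q, by positivity, ?_⟩
  intro a b
  have hP : ∏ α ∈ R, (|(inner ℝ) α a| * |(inner ℝ) α b|) = (∏ α ∈ R, |(inner ℝ) α a|) * ∏ α ∈ R, |(inner ℝ) α b| :=
    prod_mul_distrib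
  have hP0 : 0 ≤ ∏ α ∈ R, (|(inner ℝ) α a| * |(inner ℝ) α b|) := prod_nonneg fun _ _ => by positivity
  have hterm : ∀ B ∈ Ind R n, 0 ≤ ∏ α ∈ B, (1 / (1 + (‖a‖ * |(inner ℝ) α b|) ^ 2)) := fun B _ =>
    prod_nonneg fun α _ => by positivity
  set Sm : ℝ := ∑ B ∈ Ind R n, ∏ α ∈ B, (1 / (1 + (‖a‖ * |(inner ℝ) α b|) ^ 2)) with hSm
  have hSm0 : 0 ≤ Sm := sum_nonneg hterm
  by_cases hz : ∃ α ∈ R, (inner ℝ) α a = 0 ∨ (inner ℝ) α b = 0
  · obtain ⟨α, hα, h1⟩ := hz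
    have h2 : E R a (b, 0) = 0 := by
      rcases h1 with h1 | h1
      · exact (hAlt n R hRS a (b, 0) α hα).1 h1
      · exact (hAlt n R hRS a (b, 0) α hα).2 (by rw [cp_real, h1, Complex.ofReal_zero])
    rw [h2, norm_zero]
    have : (0 : ℝ) ^ 2 = 0 := by norm_num
    rw [this]
    positivity
  push Not at hz
  obtain ⟨αl, hαl, -⟩ := hR.long
  have ha0 : a ≠ 0 := by
    intro h
    exact (hz αl hαl).1 (by rw [h, inner_zero_right])
  have hna : 0 < ‖a‖ := norm_pos_iff.2 ha0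
  obtain ⟨x1, ⟨β1, hβ1, hβ1'⟩, hx1⟩ := hcomp a (by rw [hR.span_top]; trivial) ha0
  have hmem : ∀ x α : V n, α ∈ Rz R x ↔ α ∈ R ∧ (inner ℝ) x α = 0 := by
    intro x α
    unfold Rz
    exact mem_filter
  set Φ := Rz R x1 with hΦ
  have hΦR : Φ ⊆ R := fun α hα => ((hmem x1 α).1 hα).1
  have hΦne : Φ ≠ R := by
    intro h
    rw [← h] at hβ1
    exact hβ1' ((hmem x1 β1).1 hβ1).2
  obtain ⟨hΦRS, hΦCl⟩ := (hSub n R hRS x1).2
  obtain ⟨v, ρ, hv, hρ1, hρ2, hlow, hconc⟩ := hcl a (b, 0) (1 / ‖a‖) (by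
    intro β hβ
    rw [cp_real]
    exact_mod_cast (hz β hβ).2) (by positivity)
  obtain ⟨B0, hB0, hB0c, hB0li⟩ := exB R Φ (hSp n R hR Φ hΦCl hΦne)
  set A : ℝ := ∏ α ∈ R, |(inner ℝ) α a| with hA
  have hA0 : 0 ≤ A := prod_nonneg fun _ _ => abs_nonneg _
  have hroot : ∀ β ∈ R, ‖β‖ ≤ 2 := by
    intro β hβ
    have h1 := hR.short β hβ
    rw [real_inner_self_eq_norm_sq] at h1
    nlinarith [norm_nonneg β]
  have hρ0 : 0 ≤ ρ := le_trans (by positivity) hρ1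
  have hconc2 := hconc (Wc ^ 2 * C1 * X * A * Sm / Q) (by positivity) (by
    intro ζ hζ
    set z' := shift (b, 0) v ζ with hz'
    have hz2 : ‖a‖ * ‖z'.2‖ ≤ 2 * C0 := by
      have h1 : z'.2 = ζ.im • v := by
        rw [hz']
        unfold shift
        simp
      rw [h1, norm_smul, Real.norm_eq_abs]
      have h2 : |ζ.im| ≤ ρ := hζ ▸ Complex.abs_im_le_norm ζ
      have h3 : |ζ.im| * ‖v‖ ≤ ρ * C0 := mul_le_mul h2 hv (norm_nonneg _) hρ0
      have h4 : ρ * ‖a‖ ≤ 2 := by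
        have := mul_le_mul_of_nonneg_right hρ2 hna.le
        rwa [mul_assoc, one_div, inv_mul_cancel₀ hna.ne', mul_one] at this
      calc ‖a‖ * (|ζ.im| * ‖v‖) ≤ ‖a‖ * (ρ * C0) := mul_le_mul_of_nonneg_left h3 hna.le
        _ = (ρ * ‖a‖) * C0 := by ring
        _ ≤ 2 * C0 := mul_le_mul_of_nonneg_right h4 hC0
    have hbig : ∀ β ∈ R, 1 + (‖a‖ * |(inner ℝ) β b|) ^ 2 ≤ K3 * (‖a‖ * ‖cp β z'‖) ^ 2 := by
      intro β hβ
      have h2 : ‖cp β (b, 0)‖ - ‖ζ * (((inner ℝ) β v : ℝ) : ℂ)‖ ≤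
          ‖cp β (b, 0) + ζ * (((inner ℝ) β v : ℝ) : ℂ)‖ := by
        have := norm_sub_norm_le (cp β (b, 0)) (-(ζ * (((inner ℝ) β v : ℝ) : ℂ)))
        rw [norm_neg, sub_neg_eq_add] at this
        exact this
      rw [norm_cp_real, norm_mul, hζ, Complex.norm_real, Real.norm_eq_abs, ← cp_shift, ← hz'] at h2
      have h3 : |(inner ℝ) β v| ≤ 2 * C0 :=
        (abs_real_inner_le_norm β v).trans (mul_le_mul (hroot β hβ) hv (norm_nonneg _) (by norm_num))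
      have h4 : ρ * |(inner ℝ) β v| ≤ 2 * (1 / ‖a‖) * (2 * C0) :=
        mul_le_mul hρ2 h3 (abs_nonneg _) (by positivity)
      have h5 : ‖a‖ * (ρ * |(inner ℝ) β v|) ≤ 4 * C0 := by
        have := mul_le_mul_of_nonneg_left h4 hna.le
        have h6 : ‖a‖ * (2 * (1 / ‖a‖) * (2 * C0)) = 4 * C0 := by
          field_simp
          ring
        linarith
      have h7 := hlow ζ hζ β hβ
      have h8 : c ≤ ‖a‖ * ‖cp β z'‖ := by
        have := mul_le_mul_of_nonneg_left h7 hna.le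
        have h9 : ‖a‖ * (c * (1 / ‖a‖)) = c := by
          field_simp
        linarith
      obtain ⟨g, hg⟩ : ∃ g, g = ‖a‖ * ‖cp β z'‖ := ⟨_, rfl⟩
      obtain ⟨t, ht⟩ : ∃ t, t = ‖a‖ * |(inner ℝ) β b| := ⟨_, rfl⟩
      have ht0 : 0 ≤ t := by
        rw [ht]
        positivity
      have h10 : t ≤ g + 4 * C0 := by
        have := mul_le_mul_of_nonneg_left h2 hna.le
        rw [mul_sub] at this
        rw [ht, hg]
        linarith
      rw [← hg, ← ht]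
      rw [← hg] at h8
      have hg0 : 0 < g := hc.trans_le h8
      have h11 : t ≤ (1 + 4 * C0 / c) * g := by
        have h12 : 4 * C0 ≤ 4 * C0 / c * g := by
          rw [div_mul_eq_mul_div, le_div_iff₀ hc]
          exact mul_le_mul_of_nonneg_left h8 (by positivity)
        linarith
      have h12 : t ^ 2 ≤ ((1 + 4 * C0 / c) * g) ^ 2 := pow_le_pow_left₀ ht0 h11 2
      have h13 : 1 ≤ 1 / c ^ 2 * g ^ 2 := by
        rw [one_div, inv_mul_eq_div, le_div_iff₀ (by positivity), one_mul]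
        exact pow_le_pow_left₀ hc.le h8 2
      rw [hK3, add_mul, ← mul_pow]
      linarith
    -- one Weyl group element
    have hone : ∀ w ∈ Wf R, Q * ‖E Φ a (w⁻¹ z'.1, w⁻¹ z'.2)‖ ^ 2 ≤
        C1 * X * (A * ∏ α ∈ R, ‖cp α z'‖) * Sm := by
      intro w hw
      have h1 := hF Φ hΦR hΦRS a (w⁻¹ z'.1, w⁻¹ z'.2)
      simp only [cp_inv, LinearIsometryEquiv.norm_map] at h1
      have h2 : Real.exp (C1 * (‖a‖ * ‖z'.2‖)) ≤ X :=
        Real.exp_le_exp.2 (mul_le_mul_of_nonneg_left hz2 hC1nn)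
      have hip1 : ∀ α ∈ R, α ∉ Φ → (inner ℝ) x1 α ≠ 0 := by
        intro α hα hα' h
        exact hα' ((hmem _ _).2 ⟨hα, h⟩)
      have hf : ∀ α ∈ R, α ∉ Φ → ε * ‖a‖ ≤ |(inner ℝ) α a| := fun α hα hα' =>
        hx1 α hα (hip1 α hα hα')
      have h3 := prod_low2 R Φ B0 hΦR (fun α => |(inner ℝ) α a| * ‖cp (w α) z'‖)
        (fun α => ε ^ 2 / K3 * (1 + (‖a‖ * |(inner ℝ) (w α) b|) ^ 2)) κ hκ0.le (min_le_left _ _)
        (by
          intro α hα hα'
          have h4 := hf α hα hα'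
          have h5 := hlow ζ hζ (w α) (hWR w hw α hα)
          calc κ ≤ ε * c := min_le_right _ _
            _ = (ε * ‖a‖) * (c * (1 / ‖a‖)) := by
                field_simp
            _ ≤ _ := mul_le_mul h4 h5 (by positivity) (abs_nonneg _))
        (fun α _ => by positivity) hB0
        (fun α hα => ⟨hneg α (hB0 α hα).1, fun h => by
          have h4 := ((hmem _ _).1 h).2
          rw [inner_neg_right, neg_eq_zero] at h4
          exact hip1 α (hB0 α hα).1 (hB0 α hα).2 h4⟩)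
        (fun α hα h => by
          have h4 : (1 : ℝ) • α = (-1 : ℝ) • (-α) := by
            rw [one_smul, neg_smul, one_smul, neg_neg]
          have h5 := hB0li.eq_of_smul_apply_eq_smul_apply (1 : ℝ) (-1 : ℝ) ⟨α, hα⟩ ⟨-α, h⟩
            one_ne_zero h4
          have h6 : α = -α := congrArg Subtype.val h5
          have h7 : (2 : ℝ) • α = 0 := by
            rw [two_smul]
            exact add_eq_zero_iff_eq_neg.2 h6
          have h8 : α = 0 := (smul_eq_zero.1 h7).resolve_left two_ne_zero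
          exact hRS.ne0 (h8 ▸ (hB0 α hα).1))
        (fun α _ => by positivity)
        (fun α hα => by
          have h4 := hbig (w α) (hWR w hw α (hB0 α hα).1)
          have h5 := hf α (hB0 α hα).1 (hB0 α hα).2
          have h6 : ‖cp (w (-α)) z'‖ = ‖cp (w α) z'‖ := by
            have : cp (w (-α)) z' = -cp (w α) z' := by
              unfold cp
              simp only [map_neg, inner_neg_left]
              push_cast
              ring
            rw [this, norm_neg]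
          have h7 : |(inner ℝ) (-α) a| = |(inner ℝ) α a| := by
            rw [inner_neg_left, abs_neg]
          have h8 : ε * (‖a‖ * ‖cp (w α) z'‖) ≤ |(inner ℝ) α a| * ‖cp (w α) z'‖ := by
            rw [← mul_assoc]
            exact mul_le_mul_of_nonneg_right h5 (norm_nonneg _)
          have h9 : (ε * (‖a‖ * ‖cp (w α) z'‖)) ^ 2 ≤ (|(inner ℝ) α a| * ‖cp (w α) z'‖) ^ 2 :=
            pow_le_pow_left₀ (by positivity) h8 2
          show ε ^ 2 / K3 * (1 + (‖a‖ * |(inner ℝ) (w α) b|) ^ 2) ≤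
            |(inner ℝ) α a| * ‖cp (w α) z'‖ * (|(inner ℝ) (-α) a| * ‖cp (w (-α)) z'‖)
          rw [h6, h7, ← pow_two]
          refine le_trans ?_ h9
          calc ε ^ 2 / K3 * (1 + (‖a‖ * |(inner ℝ) (w α) b|) ^ 2)
              ≤ ε ^ 2 / K3 * (K3 * (‖a‖ * ‖cp (w α) z'‖) ^ 2) :=
                mul_le_mul_of_nonneg_left h4 (by positivity)
            _ = (ε * (‖a‖ * ‖cp (w α) z'‖)) ^ 2 := by
                field_simp)
      have h4 : ∏ α ∈ R, (|(inner ℝ) α a| * ‖cp (w α) z'‖) = A * ∏ α ∈ R, ‖cp α z'‖ := by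
        rw [prod_mul_distrib, hprod w hw ℝ (fun α => ‖cp α z'‖)]
      rw [h4, prod_mul_distrib, prod_const, hB0c, ← mul_assoc, ← hQ] at h3
      -- the basis
      set B : Finset (V n) := B0.image (fun α => w α) with hB
      have hBmem : B ∈ Ind R n := by
        unfold Ind
        rw [mem_filter, mem_powerset]
        refine ⟨?_, ?_, ?_⟩
        · intro β hβ
          obtain ⟨α, hα, rfl⟩ := mem_image.1 hβ
          exact hWR w hw α (hB0 α hα).1
        · rw [hB, card_image_of_injective _ w.injective, hB0c]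
        · rw [hB, coe_image]
          have h5 : LinearIndepOn ℝ (fun α : V n => w α) (B0 : Set (V n)) :=
            LinearIndependent.map' hB0li (w.toLinearEquiv : V n →ₗ[ℝ] V n)
              (LinearEquiv.ker w.toLinearEquiv)
          exact h5.id_image
      have h6 : ∏ β ∈ B, (1 / (1 + (‖a‖ * |(inner ℝ) β b|) ^ 2)) ≤ Sm :=
        single_le_sum (f := fun B : Finset (V n) =>
          ∏ α ∈ B, (1 / (1 + (‖a‖ * |(inner ℝ) α b|) ^ 2))) hterm hBmem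
      have h7 : ∏ β ∈ B, (1 / (1 + (‖a‖ * |(inner ℝ) β b|) ^ 2)) =
          (∏ α ∈ B0, (1 + (‖a‖ * |(inner ℝ) (w α) b|) ^ 2))⁻¹ := by
        rw [hB, prod_image (fun x _ y _ hxy => w.injective hxy), ← prod_inv_distrib]
        exact prod_congr rfl fun α _ => one_div _
      obtain ⟨D, hD⟩ : ∃ D, D = ∏ α ∈ B0, (1 + (‖a‖ * |(inner ℝ) (w α) b|) ^ 2) := ⟨_, rfl⟩
      have hD0 : 0 < D := by
        rw [hD]
        exact prod_pos fun α _ => by positivity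
      rw [h7, ← hD] at h6
      rw [← hD] at h3
      have h5 : 0 ≤ ∏ α ∈ Φ, (|(inner ℝ) α a| * ‖cp (w α) z'‖) := prod_nonneg fun _ _ => by positivity
      have h8 : 0 ≤ A * ∏ α ∈ R, ‖cp α z'‖ := mul_nonneg hA0 (prod_nonneg fun _ _ => norm_nonneg _)
      have h9 : Q * ∏ α ∈ Φ, (|(inner ℝ) α a| * ‖cp (w α) z'‖) ≤ (A * ∏ α ∈ R, ‖cp α z'‖) * Sm := by
        calc Q * ∏ α ∈ Φ, (|(inner ℝ) α a| * ‖cp (w α) z'‖)
            = (Q * D * ∏ α ∈ Φ, (|(inner ℝ) α a| * ‖cp (w α) z'‖)) * D⁻¹ := by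
              field_simp
          _ ≤ (A * ∏ α ∈ R, ‖cp α z'‖) * D⁻¹ :=
              mul_le_mul_of_nonneg_right h3 (inv_nonneg.2 hD0.le)
          _ ≤ _ := mul_le_mul_of_nonneg_left h6 h8
      calc Q * ‖E Φ a (w⁻¹ z'.1, w⁻¹ z'.2)‖ ^ 2
          ≤ Q * (C1 * (∏ α ∈ Φ, (|(inner ℝ) α a| * ‖cp (w α) z'‖)) * Real.exp (C1 * (‖a‖ * ‖z'.2‖))) :=
            mul_le_mul_of_nonneg_left h1 hQ0.le
        _ ≤ Q * (C1 * (∏ α ∈ Φ, (|(inner ℝ) α a| * ‖cp (w α) z'‖)) * X) := by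
            refine mul_le_mul_of_nonneg_left (mul_le_mul_of_nonneg_left h2 ?_) hQ0.le
            exact mul_nonneg hC1nn h5
        _ = C1 * X * (Q * ∏ α ∈ Φ, (|(inner ℝ) α a| * ‖cp (w α) z'‖)) := by
            ring
        _ ≤ C1 * X * ((A * ∏ α ∈ R, ‖cp α z'‖) * Sm) := mul_le_mul_of_nonneg_left h9 (by positivity)
        _ = _ := by ring
    have hsum := hLd n R hRS Φ hΦR hΦRS a z'
    have h6 : ‖E R a z'‖ ^ 2 ≤ Wc * ∑ w ∈ Wf R, ‖E Φ a (w⁻¹ z'.1, w⁻¹ z'.2)‖ ^ 2 :=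
      (pow_le_pow_left₀ (norm_nonneg _) hsum 2).trans sq_sum_le_card_mul_sum_sq
    have h7 : Q * ‖E R a z'‖ ^ 2 ≤ Wc ^ 2 * C1 * X * A * Sm * ∏ α ∈ R, ‖cp α z'‖ := by
      calc Q * ‖E R a z'‖ ^ 2 ≤ Q * (Wc * ∑ w ∈ Wf R, ‖E Φ a (w⁻¹ z'.1, w⁻¹ z'.2)‖ ^ 2) :=
            mul_le_mul_of_nonneg_left h6 hQ0.le
        _ = Wc * ∑ w ∈ Wf R, Q * ‖E Φ a (w⁻¹ z'.1, w⁻¹ z'.2)‖ ^ 2 := by
            rw [← mul_sum]
            ring
        _ ≤ Wc * ∑ _w ∈ Wf R, C1 * X * (A * ∏ α ∈ R, ‖cp α z'‖) * Sm :=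
            mul_le_mul_of_nonneg_left (sum_le_sum hone) (by positivity)
        _ = _ := by
            rw [sum_const, nsmul_eq_mul]
            ring
    rw [div_mul_eq_mul_div, le_div_iff₀ hQ0, mul_comm]
    exact h7)
  simp only [norm_cp_real] at hconc2
  refine hconc2.trans (le_of_eq ?_)
  rw [hP]
  ring

end H391.AE.Q_P
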