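import Mathlib
import Pool.Agent.H391.AE.S2

set_option autoImplicit false

open Finset
open scoped InnerProductSpace

namespace H391.AE.Q_V

theorem nd_nonneg (x : ℝ) : 0 ≤ nd x := abs_nonneg _

theorem nd_half (x : ℝ) : nd x ≤ 1 / 2 := abs_sub_round x

theorem nd_neg_le (x : ℝ) : nd (-x) ≤ nd x := by
  have h := round_le (-x) (-(round x))
  have e : |(-x) - ((-(round x) : ℤ) : ℝ)| = |x - round x| := by
    rw [← abs_neg]
    congr 1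
    push_cast
    ring
  unfold nd
  rw [← e]
  exact h

theorem nd_neg (x : ℝ) : nd (-x) = nd x := by
  apply le_antisymm (nd_neg_le x)
  have := nd_neg_le (-x)
  rwa [neg_neg] at this

theorem nd_eq (x : ℝ) (z : ℤ) (h : |x - z| ≤ 1 / 2) : nd x = |x - z| := by
  apply le_antisymm
  · exact round_le x z
  · by_cases hz : z = round x
    · rw [hz]
      exact le_rfl
    · have h1 : (1 : ℝ) ≤ |((z - round x : ℤ) : ℝ)| := by
        rw [← Int.cast_abs]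
        exact_mod_cast Int.one_le_abs (sub_ne_zero.2 hz)
      have h2 : ((z - round x : ℤ) : ℝ) = (x - round x) - (x - z) := by
        push_cast
        ring
      rw [h2] at h1
      have h3 := abs_sub (x - round x) (x - z)
      unfold nd
      linarith

/-- the common constant of the basic bound -/
theorem cF (hF : S_F1) {n : ℕ} (R : Finset (V n)) : ∃ C : ℝ, 0 ≤ C ∧ ∀ Φ ⊆ R, IsRS Φ →
    ∀ a b : V n, ‖E Φ a (b, 0)‖ ^ 2 ≤ C * ∏ α ∈ Φ, (|(inner ℝ) α a| * |(inner ℝ) α b|) := by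
  have h : ∀ Φ : Finset (V n), ∃ C : ℝ, 0 ≤ C ∧ (IsRS Φ →
      ∀ a b : V n, ‖E Φ a (b, 0)‖ ^ 2 ≤ C * ∏ α ∈ Φ, (|(inner ℝ) α a| * |(inner ℝ) α b|)) := by
    intro Φ
    by_cases hΦ : IsRS Φ
    · obtain ⟨C, hC, h⟩ := hF n Φ hΦ
      refine ⟨C, hC, fun _ a b => ?_⟩
      have h1 := h a (b, 0)
      have h2 : ∀ α : V n, ‖cp α (b, (0 : V n))‖ = |(inner ℝ) α b| := by
        intro α
        simp [cp]
      simp only [h2, norm_zero, mul_zero, Real.exp_zero, mul_one] at h1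
      exact h1
    · exact ⟨0, le_rfl, fun h => absurd h hΦ⟩
  choose Cf hC0 hC using h
  refine ⟨∑ Φ ∈ R.powerset, Cf Φ, sum_nonneg fun Φ _ => hC0 Φ, ?_⟩
  intro Φ hΦ hRS a b
  have h1 : Cf Φ ≤ ∑ Φ ∈ R.powerset, Cf Φ :=
    single_le_sum (f := Cf) (fun Φ _ => hC0 Φ) (mem_powerset.2 hΦ)
  have h2 : 0 ≤ ∏ α ∈ Φ, (|(inner ℝ) α a| * |(inner ℝ) α b|) :=
    prod_nonneg fun α _ => mul_nonneg (abs_nonneg _) (abs_nonneg _)
  exact (hC Φ hRS a b).trans (mul_le_mul_of_nonneg_right h1 h2)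

theorem mem_Rint {n : ℕ} (R : Finset (V n)) (v γ : V n) :
    γ ∈ Rint R v ↔ γ ∈ R ∧ ∃ z : ℤ, (inner ℝ) v γ = z := by
  simp only [Rint, mem_filter]

/-- the special point near a weight -/
theorem pt {n : ℕ} {R : Finset (V n)} {ε : ℝ}
    (hac : ∀ x : V n, (∀ α ∈ R, |(inner ℝ) α x| ≤ 1) → ∃ v : V n, (∀ α ∈ R, |(inner ℝ) α (x - v)| ≤ 1 / 2) ∧
      ∀ α ∈ R, α ∉ Rint R v → ε ≤ nd ((inner ℝ) α x)) (r : ℕ) (hr : 1 ≤ r) (a : V n) (ha : Good R r a) :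
    ∃ v : V n, (∀ γ ∈ Rint R v, |(inner ℝ) γ (a - (r : ℝ) • v)| = r * nd ((inner ℝ) γ a / r)) ∧
      ∀ γ ∈ R, γ ∉ Rint R v → ε ≤ nd ((inner ℝ) γ a / r) := by
  have hr0 : (0 : ℝ) < r := by exact_mod_cast hr
  have hx : ∀ γ : V n, (inner ℝ) γ ((1 / (r : ℝ)) • a) = (inner ℝ) γ a / r := by
    intro γ
    rw [real_inner_smul_right]
    ring
  obtain ⟨v, h1, h2⟩ := hac ((1 / (r : ℝ)) • a) (by
    intro α hα
    rw [hx, abs_div, abs_of_pos hr0, div_le_one hr0]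
    exact (ha.2 α hα).2.le)
  refine ⟨v, ?_, ?_⟩
  · intro γ hγ
    obtain ⟨hγR, z, hz⟩ := (mem_Rint R v γ).1 hγ
    rw [real_inner_comm] at hz
    have h3 := h1 γ hγR
    rw [inner_sub_right, hx, hz] at h3
    rw [nd_eq _ z h3, inner_sub_right, real_inner_smul_right, hz]
    have h4 : (inner ℝ) γ a - (r : ℝ) * z = r * ((inner ℝ) γ a / r - z) := by
      field_simp
    rw [h4, abs_mul, abs_of_pos hr0]
  · intro γ hγ hγ'
    have h3 := h2 γ hγ hγ'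
    rwa [hx] at h3

theorem prod_low {n : ℕ} (N : ℕ) (S : Finset (V n)) (p : V n → ℝ) (η : ℝ) (h0 : 0 < η) (h1 : η ≤ 1)
    (hS : S.card ≤ N) (hp : ∀ γ ∈ S, η ≤ p γ) : η ^ N ≤ ∏ γ ∈ S, p γ := by
  calc η ^ N ≤ η ^ S.card := pow_le_pow_of_le_one h0.le h1 hS
    _ = ∏ _γ ∈ S, η := (prod_const _).symm
    _ ≤ ∏ γ ∈ S, p γ := prod_le_prod (fun _ _ => h0.le) hp

theorem adj {n : ℕ} (g : V n ≃ₗᵢ[ℝ] V n) (γ y : V n) : (inner ℝ) γ (g⁻¹ y) = (inner ℝ) (g γ) y := by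
  rw [← g.inner_map_map γ (g⁻¹ y)]
  congr 1
  exact g.apply_symm_apply y

theorem inv_app {n : ℕ} (g : V n ≃ₗᵢ[ℝ] V n) (y : V n) : g (g⁻¹ y) = y := g.apply_symm_apply y

theorem app_inv {n : ℕ} (g : V n ≃ₗᵢ[ℝ] V n) (y : V n) : g⁻¹ (g y) = y := g.symm_apply_apply y

theorem inv_mem' (hW : S_W) {n : ℕ} {R : Finset (V n)} (hR : IsRS R) {w : V n ≃ₗᵢ[ℝ] V n}
    (hw : w ∈ Wf R) : w⁻¹ ∈ Wf R := by
  have h := (hW n R hR).1
  rw [h] at hw ⊢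
  exact Subgroup.inv_mem _ hw

theorem mem_Ind {n : ℕ} (R : Finset (V n)) (k : ℕ) (B : Finset (V n)) :
    B ∈ Ind R k ↔ B ⊆ R ∧ B.card = k ∧ LinearIndepOn ℝ id (B : Set (V n)) := by
  simp only [Ind, mem_filter, mem_powerset]

theorem map_Ind {n : ℕ} {R : Finset (V n)} {k : ℕ} (w : V n ≃ₗᵢ[ℝ] V n) (hw : ∀ α ∈ R, w α ∈ R)
    (B : Finset (V n)) (hB : B ∈ Ind R k) : B.map w.toEquiv.toEmbedding ∈ Ind R k := by
  rw [mem_Ind] at hB ⊢
  obtain ⟨h1, h2, h3⟩ := hB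
  refine ⟨?_, ?_, ?_⟩
  · intro x hx
    rw [mem_map] at hx
    obtain ⟨y, hy, rfl⟩ := hx
    exact hw y (h1 hy)
  · rw [card_map, h2]
  · rw [coe_map]
    have h4 : LinearIndepOn ℝ (w.toEquiv.toEmbedding : V n → V n) (B : Set (V n)) := by
      have := LinearIndependent.map' h3 (w.toLinearEquiv : V n →ₗ[ℝ] V n) (LinearEquiv.ker _)
      exact this
    exact h4.id_image

theorem sum_img {n : ℕ} {R : Finset (V n)} {k : ℕ} (w : V n ≃ₗᵢ[ℝ] V n) (hw : ∀ α ∈ R, w α ∈ R)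
    (g : Finset (V n) → ℝ) (hg : ∀ B, 0 ≤ g B) :
    ∑ B ∈ Ind R k, g (B.map w.toEquiv.toEmbedding) ≤ ∑ B ∈ Ind R k, g B := by
  have e := sum_map (Ind R k) (Finset.mapEmbedding w.toEquiv.toEmbedding).toEmbedding g
  have e' : ∑ B ∈ Ind R k, g (B.map w.toEquiv.toEmbedding) =
      ∑ x ∈ (Ind R k).map (Finset.mapEmbedding w.toEquiv.toEmbedding).toEmbedding, g x := by
    rw [e]
    rfl
  rw [e']
  apply sum_le_sum_of_subset_of_nonneg
  · intro B hB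
    rw [mem_map] at hB
    obtain ⟨B', hB', rfl⟩ := hB
    exact map_Ind w hw B' hB'
  · intro B _ _
    exact hg B

theorem prod_basis {n : ℕ} (S B : Finset (V n)) (hBS : B ⊆ S) (hneg : ∀ α ∈ S, -α ∈ S)
    (h0 : (0 : V n) ∉ S) (hLI : LinearIndepOn ℝ id (B : Set (V n))) (p g : V n → ℝ) (N : ℕ)
    (hN : S.card ≤ N) (ε η : ℝ) (hε : 0 < ε) (η0 : 0 < η) (η1 : η ≤ 1)
    (hg0 : ∀ α ∈ S, 0 ≤ g α) (hgn : ∀ α, g (-α) = g α)
    (hp : ∀ α ∈ S, ε * g α ≤ p α) (hη : ∀ α ∈ S, η ≤ p α) :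
    (ε ^ B.card * ∏ α ∈ B, g α) ^ 2 * η ^ N ≤ ∏ α ∈ S, p α := by
  classical
  have hdis : ∀ α ∈ B, -α ∉ B := by
    intro α hα hα'
    have hne : α ≠ -α := by
      intro h
      have : (2 : ℝ) • α = 0 := by
        rw [two_smul]
        nth_rewrite 2 [h]
        exact add_neg_cancel α
      have h1 := (smul_eq_zero.1 this).resolve_left (by norm_num)
      exact h0 (h1 ▸ hBS hα)
    have hsub : (({α, -α} : Set (V n))) ⊆ (B : Set (V n)) := by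
      intro x hx
      rcases hx with rfl | hx
      · exact hα
      · rw [Set.mem_singleton_iff] at hx
        rw [hx]
        exact hα'
    have h2 := hLI.mono hsub
    rw [LinearIndepOn.pair_iff id hne] at h2
    have h3 := h2 1 1 (by simp)
    exact one_ne_zero h3.1
  set B' : Finset (V n) := B.map (Equiv.neg (V n)).toEmbedding with hB'
  have hd : Disjoint B B' := by
    rw [disjoint_left]
    intro x hx hx'
    rw [hB', mem_map] at hx'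
    obtain ⟨y, hy, hyx⟩ := hx'
    have hyx' : -y = x := hyx
    apply hdis x hx
    rw [← hyx', neg_neg]
    exact hy
  have hsubS : B.disjUnion B' hd ⊆ S := by
    intro x hx
    rw [mem_disjUnion] at hx
    rcases hx with hx | hx
    · exact hBS hx
    · rw [hB', mem_map] at hx
      obtain ⟨y, hy, hyx⟩ := hx
      have hyx' : -y = x := hyx
      rw [← hyx']
      exact hneg y (hBS hy)
  rw [← prod_sdiff hsubS, prod_disjUnion, mul_comm (_ ^ 2)]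
  have e1 : ∏ x ∈ B', p x = ∏ x ∈ B, p (-x) := by
    rw [hB', prod_map]
    rfl
  have l0 : 0 ≤ ε ^ B.card * ∏ α ∈ B, g α :=
    mul_nonneg (pow_pos hε _).le (prod_nonneg fun α hα => hg0 α (hBS hα))
  have l1 : ε ^ B.card * ∏ α ∈ B, g α ≤ ∏ x ∈ B, p x := by
    rw [← prod_const, ← prod_mul_distrib]
    exact prod_le_prod (fun α hα => mul_nonneg hε.le (hg0 α (hBS hα))) (fun α hα => hp α (hBS hα))
  have l2 : ε ^ B.card * ∏ α ∈ B, g α ≤ ∏ x ∈ B, p (-x) := by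
    rw [← prod_const, ← prod_mul_distrib]
    apply prod_le_prod (fun α hα => mul_nonneg hε.le (hg0 α (hBS hα)))
    intro α hα
    have := hp (-α) (hneg α (hBS hα))
    rwa [hgn] at this
  have l3 : η ^ N ≤ ∏ x ∈ S \ B.disjUnion B' hd, p x := by
    apply prod_low N _ p η η0 η1 ((card_le_card sdiff_subset).trans hN)
    intro γ hγ
    rw [mem_sdiff] at hγ
    exact hη γ hγ.1
  rw [e1, pow_two]
  exact mul_le_mul l3 (mul_le_mul l1 l2 l0 (l0.trans l1)) (mul_nonneg l0 l0)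
    ((pow_pos η0 _).le.trans l3)

/-- a basis in the complement -/
theorem ex_basis (hsp : S_sp) {n : ℕ} {R : Finset (V n)} (hR : Simple R) (Ψ : Finset (V n))
    (hΨ : Cl R Ψ) (hne : Ψ ≠ R) : ∃ B : Finset (V n), (∀ α ∈ B, α ∈ R ∧ α ∉ Ψ) ∧ B ∈ Ind R n := by
  have hs := hsp n R hR Ψ hΨ hne
  obtain ⟨b, hb1, hb2, hb3⟩ := exists_linearIndependent ℝ {α : V n | α ∈ R ∧ α ∉ Ψ}
  have hfin : b.Finite := by
    apply (Finset.finite_toSet R).subset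
    intro x hx
    exact (hb1 hx).1
  have hLI : LinearIndepOn ℝ id (hfin.toFinset : Set (V n)) := by
    rw [Set.Finite.coe_toFinset]
    exact hb3
  refine ⟨hfin.toFinset, ?_, ?_⟩
  · intro α hα
    rw [Set.Finite.mem_toFinset] at hα
    exact hb1 hα
  · rw [mem_Ind]
    refine ⟨?_, ?_, hLI⟩
    · intro α hα
      rw [Set.Finite.mem_toFinset] at hα
      exact (hb1 hα).1
    · have h1 := finrank_span_finset_eq_card (R := ℝ) (s := hfin.toFinset) hLI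
      rw [Set.Finite.coe_toFinset, hb2, hs, finrank_top, finrank_euclideanSpace_fin] at h1
      exact h1.symm

theorem term (hW : S_W) (hsub : S_sub) (hsp : S_sp) {n : ℕ} {R : Finset (V n)} (hR : Simple R)
    {CF CP ε : ℝ} (hCF : 0 ≤ CF) (hCP : 0 ≤ CP) (hε : 0 < ε) (hε1 : ε ≤ 1)
    (hF : ∀ Φ ⊆ R, IsRS Φ → ∀ a b : V n,
      ‖E Φ a (b, 0)‖ ^ 2 ≤ CF * ∏ α ∈ Φ, (|(inner ℝ) α a| * |(inner ℝ) α b|))
    (hPb : ∀ a b : V n, ‖E R a (b, 0)‖ ^ 2 ≤ CP * (∏ α ∈ R, (|(inner ℝ) α a| * |(inner ℝ) α b|)) *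
      ∑ B ∈ Ind R n, ∏ α ∈ B, (1 / (1 + (‖a‖ * |(inner ℝ) α b|) ^ 2)))
    (r : ℕ) (hr : 1 ≤ r) (a b v₁ v₂ : V n)
    (ha0 : ∀ γ ∈ R, 1 / (3 * (r : ℝ)) ≤ nd ((inner ℝ) γ a / r))
    (hb0 : ∀ γ ∈ R, 1 / (3 * (r : ℝ)) ≤ nd ((inner ℝ) γ b / r))
    (ha1 : ∀ γ ∈ Rint R v₁, |(inner ℝ) γ (a - (r : ℝ) • v₁)| = r * nd ((inner ℝ) γ a / r))
    (ha2 : ∀ γ ∈ R, γ ∉ Rint R v₁ → ε ≤ nd ((inner ℝ) γ a / r))
    (hb1 : ∀ γ ∈ Rint R v₂, |(inner ℝ) γ (b - (r : ℝ) • v₂)| = r * nd ((inner ℝ) γ b / r))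
    (hb2 : ∀ γ ∈ R, γ ∉ Rint R v₂ → ε ≤ nd ((inner ℝ) γ b / r))
    (γ₀ : V n) (hγ₀ : γ₀ ∈ R) (w u : V n ≃ₗᵢ[ℝ] V n) (hw : w ∈ Wf R)
    (hu : u ∈ Wf (Rint R v₁)) (S₁ S₂ : ℝ)
    (hS₁ : S₁ = ∑ B ∈ Ind R n, ∏ α ∈ B,
      (1 / (1 + (r * nd ((inner ℝ) γ₀ a / r) * nd ((inner ℝ) α b / r)) ^ 2)))
    (hS₂ : S₂ = ∑ k ∈ range (n + 1), ∑ B₁ ∈ Ind R k, ∑ B₂ ∈ Ind R (n - k),
        (∏ β ∈ B₁, (1 / (r * nd ((inner ℝ) β b / r)) ^ 2)) * ∏ β ∈ B₂, (1 / (r * nd ((inner ℝ) β a / r)) ^ 2)) :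
    ‖E (Rint (Rint R v₁) (w⁻¹ v₂)) ((2 * Real.pi / r) • u⁻¹ (a - (r : ℝ) • v₁))
      (w⁻¹ (b - (r : ℝ) • v₂), 0)‖ ^ 2 ≤
      (CF * (2 * Real.pi) ^ R.card / ((ε ^ n) ^ 2 * (ε / 3) ^ R.card) + CP * (2 * Real.pi) ^ R.card) *
      ((r : ℝ) ^ R.card * ∏ γ ∈ R, (nd ((inner ℝ) γ a / r) * nd ((inner ℝ) γ b / r))) * (S₁ + S₂) := by
  have hRS := hR.toIsRS
  obtain ⟨w1, w2, -, -, w5, w6, -, -, w9⟩ := hW n R hRS
  have hRS1 : IsRS (Rint R v₁) := (hsub n R hRS v₁).1.1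
  have hCl1 : Cl R (Rint R v₁) := (hsub n R hRS v₁).1.2
  have hCl2 : Cl R (Rint R (w⁻¹ v₂)) := (hsub n R hRS (w⁻¹ v₂)).1.2
  have hRS3 : IsRS (Rint (Rint R v₁) (w⁻¹ v₂)) := (hsub n _ hRS1 (w⁻¹ v₂)).1.1
  obtain ⟨-, s2, -⟩ := hW n (Rint R v₁) hRS1
  have huR : u ∈ Wf R := w6 _ hCl1.sub hRS1 hu
  have hui := inv_mem' hW hRS1 hu
  have huiR := inv_mem' hW hRS huR
  have hwi := inv_mem' hW hRS hw
  have hr0 : (0 : ℝ) < r := by exact_mod_cast hr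
  have hr1 : (1 : ℝ) ≤ r := by exact_mod_cast hr
  have hpi : 1 ≤ 2 * Real.pi := by linarith [Real.pi_gt_three]
  set Ψ := Rint (Rint R v₁) (w⁻¹ v₂) with hΨ
  have hΨR : Ψ ⊆ R := by
    intro γ hγ
    rw [hΨ, mem_Rint] at hγ
    exact hCl1.sub hγ.1
  have hmem : ∀ γ, γ ∈ Ψ ↔ γ ∈ Rint R v₁ ∧ γ ∈ Rint R (w⁻¹ v₂) := by
    intro γ
    rw [hΨ, mem_Rint, mem_Rint R (w⁻¹ v₂)]
    constructor
    · rintro ⟨h1, h2⟩
      exact ⟨h1, hCl1.sub h1, h2⟩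
    · rintro ⟨h1, -, h2⟩
      exact ⟨h1, h2⟩
  have hw2 : ∀ γ ∈ R, (γ ∈ Rint R (w⁻¹ v₂) ↔ w γ ∈ Rint R v₂) := by
    intro γ hγ
    rw [mem_Rint, mem_Rint, real_inner_comm, adj, real_inner_comm]
    exact ⟨fun h => ⟨w2 w hw γ hγ, h.2⟩, fun h => ⟨hγ, h.2⟩⟩
  have hu2 : ∀ γ, (γ ∈ Rint R v₁ ↔ u γ ∈ Rint R v₁) := by
    intro γ
    refine ⟨fun h => s2 u hu γ h, fun h => ?_⟩
    have := s2 _ hui _ h
    rwa [app_inv] at this
  set A : V n → ℝ := fun γ => nd ((inner ℝ) (u γ) a / r) with hA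
  set B : V n → ℝ := fun γ => nd ((inner ℝ) (w γ) b / r) with hB
  set p : V n → ℝ := fun γ => r * A γ * B γ with hp
  have hA0 : ∀ γ ∈ R, 1 / (3 * (r : ℝ)) ≤ A γ := fun γ hγ => ha0 _ (w2 u huR γ hγ)
  have hB0 : ∀ γ ∈ R, 1 / (3 * (r : ℝ)) ≤ B γ := fun γ hγ => hb0 _ (w2 w hw γ hγ)
  have hApos : ∀ γ, 0 ≤ A γ := fun γ => nd_nonneg _
  have hBpos : ∀ γ, 0 ≤ B γ := fun γ => nd_nonneg _
  have hAε : ∀ γ ∈ R, γ ∉ Rint R v₁ → ε ≤ A γ := by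
    intro γ hγ h
    exact ha2 _ (w2 u huR γ hγ) (fun h1 => h ((hu2 γ).2 h1))
  have hBε : ∀ γ ∈ R, γ ∉ Rint R (w⁻¹ v₂) → ε ≤ B γ := by
    intro γ hγ h
    exact hb2 _ (w2 w hw γ hγ) (fun h1 => h ((hw2 γ hγ).2 h1))
  have hA1 : ∀ γ ∈ Rint R v₁, |(inner ℝ) γ (u⁻¹ (a - (r : ℝ) • v₁))| = r * A γ := by
    intro γ hγ
    rw [adj]
    exact ha1 _ ((hu2 γ).1 hγ)
  have hB1 : ∀ γ ∈ Rint R (w⁻¹ v₂), |(inner ℝ) γ (w⁻¹ (b - (r : ℝ) • v₂))| = r * B γ := by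
    intro γ hγ
    rw [adj]
    exact hb1 _ ((hw2 γ (hCl2.sub hγ)).1 hγ)
  have hAneg : ∀ γ, A (-γ) = A γ := by
    intro γ
    show nd ((inner ℝ) (u (-γ)) a / r) = nd ((inner ℝ) (u γ) a / r)
    rw [map_neg, inner_neg_left, neg_div, nd_neg]
  have hBneg : ∀ γ, B (-γ) = B γ := by
    intro γ
    show nd ((inner ℝ) (w (-γ)) b / r) = nd ((inner ℝ) (w γ) b / r)
    rw [map_neg, inner_neg_left, neg_div, nd_neg]
  have hP : (r : ℝ) ^ R.card * ∏ γ ∈ R, (nd ((inner ℝ) γ a / r) * nd ((inner ℝ) γ b / r)) = ∏ γ ∈ R, p γ := by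
    have e1 := w9 u huR ℝ (fun γ => nd ((inner ℝ) γ a / r))
    have e2 := w9 w hw ℝ (fun γ => nd ((inner ℝ) γ b / r))
    rw [prod_mul_distrib, ← e1, ← e2, hp]
    simp only [prod_mul_distrib, prod_const]
    ring
  rw [hP]
  set a' := a - (r : ℝ) • v₁ with ha'
  set b' := b - (r : ℝ) • v₂ with hb'
  have hp0 : ∀ γ ∈ R, 0 ≤ p γ := fun γ _ => mul_nonneg (mul_nonneg hr0.le (hApos γ)) (hBpos γ)
  have hfac : ∀ γ ∈ Ψ, |(inner ℝ) γ ((2 * Real.pi / r) • u⁻¹ a')| * |(inner ℝ) γ (w⁻¹ b')| =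
      (2 * Real.pi) * p γ := by
    intro γ hγ
    rw [hmem] at hγ
    rw [real_inner_smul_right, abs_mul, hA1 γ hγ.1, hB1 γ hγ.2,
      abs_of_pos (div_pos (by linarith) hr0), hp]
    simp only
    field_simp
  have hprodΨ : ∏ γ ∈ Ψ, (|(inner ℝ) γ ((2 * Real.pi / r) • u⁻¹ a')| * |(inner ℝ) γ (w⁻¹ b')|) =
      (2 * Real.pi) ^ Ψ.card * ∏ γ ∈ Ψ, p γ := by
    rw [prod_congr rfl hfac, prod_mul_distrib, prod_const]
  have hPΨ0 : 0 ≤ ∏ γ ∈ Ψ, p γ := prod_nonneg fun γ hγ => hp0 γ (hΨR hγ)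
  have hPR0 : 0 ≤ ∏ γ ∈ R, p γ := prod_nonneg hp0
  set T := ‖E Ψ ((2 * Real.pi / r) • u⁻¹ a') (w⁻¹ b', 0)‖ ^ 2 with hT
  have hT0 : 0 ≤ T := sq_nonneg _
  set K := CF * (2 * Real.pi) ^ R.card with hK
  have hK0 : 0 ≤ K := mul_nonneg hCF (pow_nonneg (by linarith) _)
  have hTK : T ≤ K * ∏ γ ∈ Ψ, p γ := by
    have h1 := hF Ψ hΨR hRS3 ((2 * Real.pi / r) • u⁻¹ a') (w⁻¹ b')
    rw [hprodΨ] at h1
    refine h1.trans ?_
    rw [hK, mul_assoc]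
    apply mul_le_mul_of_nonneg_left _ hCF
    exact mul_le_mul_of_nonneg_right (pow_le_pow_right₀ hpi (card_le_card hΨR)) hPΨ0
  have hη0 : 0 < ε / 3 := by linarith
  have hη1 : ε / 3 ≤ 1 := by linarith
  have hpη : ∀ γ ∈ R, γ ∉ Ψ → ε / 3 ≤ p γ := by
    intro γ hγ hγ'
    have e : ε / 3 = r * ε * (1 / (3 * (r : ℝ))) := by field_simp
    have e' : ε / 3 = r * (1 / (3 * (r : ℝ))) * ε := by field_simp
    have h13 : 0 ≤ 1 / (3 * (r : ℝ)) := by positivity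
    by_cases h1 : γ ∈ Rint R v₁
    · have h2 : γ ∉ Rint R (w⁻¹ v₂) := fun h => hγ' ((hmem γ).2 ⟨h1, h⟩)
      rw [e']
      exact mul_le_mul (mul_le_mul_of_nonneg_left (hA0 γ hγ) hr0.le) (hBε γ hγ h2) hε.le
        (mul_nonneg hr0.le (hApos γ))
    · rw [e]
      exact mul_le_mul (mul_le_mul_of_nonneg_left (hAε γ hγ h1) hr0.le) (hB0 γ hγ) h13
        (mul_nonneg hr0.le (hApos γ))
  have hηN : 0 < (ε / 3) ^ R.card := pow_pos hη0 _
  have hS₁0 : 0 ≤ S₁ := by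
    rw [hS₁]
    exact sum_nonneg fun B _ => prod_nonneg fun α _ => by positivity
  have hS₂0 : 0 ≤ S₂ := by
    rw [hS₂]
    exact sum_nonneg fun k _ => sum_nonneg fun B₁ _ => sum_nonneg fun B₂ _ =>
      mul_nonneg (prod_nonneg fun β _ => by positivity) (prod_nonneg fun β _ => by positivity)
  have hεn : 0 < (ε ^ n) ^ 2 * (ε / 3) ^ R.card := mul_pos (pow_pos (pow_pos hε _) _) hηN
  have hc1 : 0 ≤ K / ((ε ^ n) ^ 2 * (ε / 3) ^ R.card) := div_nonneg hK0 hεn.le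
  have hc3 : 0 ≤ CP * (2 * Real.pi) ^ R.card := mul_nonneg hCP (pow_nonneg (by linarith) _)
  have hfin : T ≤ K / ((ε ^ n) ^ 2 * (ε / 3) ^ R.card) * (∏ γ ∈ R, p γ) * S₂ ∨
      T ≤ CP * (2 * Real.pi) ^ R.card * (∏ γ ∈ R, p γ) * S₁ := by
    by_cases hΨe : Ψ = R
    · right
      have h1 : Rint R v₁ = R := by
        apply Subset.antisymm hCl1.sub
        intro γ hγ
        rw [← hΨe, hmem] at hγ
        exact hγ.1
      have h2 : Rint R (w⁻¹ v₂) = R := by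
        apply Subset.antisymm hCl2.sub
        intro γ hγ
        rw [← hΨe, hmem] at hγ
        exact hγ.2
      have h3 := hPb ((2 * Real.pi / r) • u⁻¹ a') (w⁻¹ b')
      rw [hΨe] at hprodΨ
      rw [hprodΨ] at h3
      have hT' : T = ‖E R ((2 * Real.pi / r) • u⁻¹ a') (w⁻¹ b', 0)‖ ^ 2 := by rw [hT, hΨe]
      rw [← hT', ← mul_assoc] at h3
      refine h3.trans (mul_le_mul_of_nonneg_left ?_ (mul_nonneg hc3 hPR0))
      rw [hS₁]
      refine le_trans (sum_le_sum (g := fun B : Finset (V n) => ∏ α ∈ B.map w.toEquiv.toEmbedding,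
        (1 / (1 + (r * nd ((inner ℝ) γ₀ a / r) * nd ((inner ℝ) α b / r)) ^ 2))) ?_)
        (sum_img w (w2 w hw) (fun B => ∏ α ∈ B,
          (1 / (1 + (r * nd ((inner ℝ) γ₀ a / r) * nd ((inner ℝ) α b / r)) ^ 2)))
          (fun B => prod_nonneg fun α _ => by positivity))
      intro B₀ hB₀
      rw [mem_Ind] at hB₀
      simp only [prod_map]
      apply prod_le_prod (fun α _ => by positivity)
      intro α hα
      have hαR := hB₀.1 hα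
      have e1 : |(inner ℝ) α (w⁻¹ b')| = r * B α := hB1 α (by rw [h2]; exact hαR)
      have e2 : nd ((inner ℝ) (w.toEquiv.toEmbedding α) b / r) = B α := rfl
      rw [e1, e2]
      have hA₀0 : 0 ≤ nd ((inner ℝ) γ₀ a / r) := nd_nonneg _
      apply one_div_le_one_div_of_le (by positivity)
      have h5 : (r : ℝ) * nd ((inner ℝ) γ₀ a / r) ≤ ‖γ₀‖ * ‖a'‖ := by
        rw [← ha1 γ₀ (by rw [h1]; exact hγ₀)]
        exact abs_real_inner_le_norm _ _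
      have h6 : ‖γ₀‖ ≤ 2 := by
        have h8 := hR.short γ₀ hγ₀
        rw [real_inner_self_eq_norm_sq] at h8
        nlinarith [norm_nonneg γ₀]
      have h7 : r * nd ((inner ℝ) γ₀ a / r) * B α ≤ ‖(2 * Real.pi / r) • u⁻¹ a'‖ * (r * B α) := by
        rw [norm_smul, LinearIsometryEquiv.norm_map,
          Real.norm_of_nonneg (div_nonneg (by linarith) hr0.le)]
        have h8 : 2 * Real.pi / r * ‖a'‖ * (r * B α) = (2 * Real.pi * ‖a'‖) * B α := by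
          field_simp
        rw [h8]
        apply mul_le_mul_of_nonneg_right _ (hBpos α)
        refine h5.trans (mul_le_mul_of_nonneg_right ?_ (norm_nonneg _))
        linarith [Real.pi_gt_three]
      have h9 : 0 ≤ r * nd ((inner ℝ) γ₀ a / r) * B α :=
        mul_nonneg (mul_nonneg hr0.le hA₀0) (hBpos α)
      have h10 := pow_le_pow_left₀ h9 h7 2
      linarith
    · left
      classical
      have hClΨ : Cl R Ψ := by
        refine ⟨hΨR, ?_, ?_⟩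
        · intro α hα
          rw [hmem] at hα ⊢
          exact ⟨hCl1.neg α hα.1, hCl2.neg α hα.2⟩
        · intro α hα β hβ hab
          rw [hmem] at hα hβ ⊢
          exact ⟨hCl1.add α hα.1 β hβ.1 hab, hCl2.add α hα.2 β hβ.2 hab⟩
      obtain ⟨B₀, hB₀, hB₀I⟩ := ex_basis hsp hR Ψ hClΨ hΨe
      have hB₀I' := (mem_Ind R n B₀).1 hB₀I
      set g : V n → ℝ := fun γ => if γ ∈ Rint R v₁ then r * A γ else r * B γ with hg
      have hBS : B₀ ⊆ R \ Ψ := fun α hα => mem_sdiff.2 (hB₀ α hα)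
      have hneg1 : ∀ γ, -γ ∈ Rint R v₁ ↔ γ ∈ Rint R v₁ := by
        intro γ
        refine ⟨fun h => ?_, fun h => hCl1.neg γ h⟩
        have := hCl1.neg _ h
        rwa [neg_neg] at this
      have hnegS : ∀ α ∈ R \ Ψ, -α ∈ R \ Ψ := by
        intro α hα
        rw [mem_sdiff] at hα ⊢
        refine ⟨w5 α hα.1, fun h => hα.2 ?_⟩
        have := hClΨ.neg _ h
        rwa [neg_neg] at this
      have h00 : (0 : V n) ∉ R \ Ψ := fun h => hRS.ne0 (mem_sdiff.1 h).1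
      have hgpos : ∀ γ ∈ R, 0 < g γ := by
        intro γ hγ
        have h13 : 0 < 1 / (3 * (r : ℝ)) := by positivity
        simp only [hg]
        split_ifs
        · exact mul_pos hr0 (h13.trans_le (hA0 γ hγ))
        · exact mul_pos hr0 (h13.trans_le (hB0 γ hγ))
      have hgn : ∀ γ, g (-γ) = g γ := by
        intro γ
        simp only [hg, hneg1, hAneg, hBneg]
      have hpg : ∀ γ ∈ R \ Ψ, ε * g γ ≤ p γ := by
        intro γ hγ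
        rw [mem_sdiff] at hγ
        simp only [hg, hp]
        split_ifs with h1
        · have h2 : γ ∉ Rint R (w⁻¹ v₂) := fun h => hγ.2 ((hmem γ).2 ⟨h1, h⟩)
          have h3 := hBε γ hγ.1 h2
          have h4 := mul_le_mul_of_nonneg_left h3 (mul_nonneg hr0.le (hApos γ))
          linarith
        · have h3 := hAε γ hγ.1 h1
          have h4 := mul_le_mul_of_nonneg_left h3 (mul_nonneg hr0.le (hBpos γ))
          linarith
      have h1 := prod_basis (R \ Ψ) B₀ hBS hnegS h00 hB₀I'.2.2 p g R.card (card_le_card sdiff_subset)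
        ε (ε / 3) hε hη0 hη1 (fun α hα => (hgpos α (mem_sdiff.1 hα).1).le) hgn hpg
        (fun α hα => hpη α (mem_sdiff.1 hα).1 (mem_sdiff.1 hα).2)
      rw [hB₀I'.2.1] at h1
      have hG : 0 < ∏ α ∈ B₀, g α := prod_pos fun α hα => hgpos α (hB₀I'.1 hα)
      have h2 : T * ((ε ^ n * ∏ α ∈ B₀, g α) ^ 2 * (ε / 3) ^ R.card) ≤ K * ∏ γ ∈ R, p γ := by
        rw [← prod_sdiff hΨR]
        calc T * ((ε ^ n * ∏ α ∈ B₀, g α) ^ 2 * (ε / 3) ^ R.card)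
            ≤ (K * ∏ γ ∈ Ψ, p γ) * ((ε ^ n * ∏ α ∈ B₀, g α) ^ 2 * (ε / 3) ^ R.card) :=
              mul_le_mul_of_nonneg_right hTK (mul_nonneg (sq_nonneg _) hηN.le)
          _ ≤ (K * ∏ γ ∈ Ψ, p γ) * ∏ γ ∈ R \ Ψ, p γ :=
              mul_le_mul_of_nonneg_left h1 (mul_nonneg hK0 hPΨ0)
          _ = K * ((∏ γ ∈ R \ Ψ, p γ) * ∏ γ ∈ Ψ, p γ) := by ring
      have h3 : T ≤ K / ((ε ^ n) ^ 2 * (ε / 3) ^ R.card) * (∏ γ ∈ R, p γ) * (1 / (∏ α ∈ B₀, g α) ^ 2) := by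
        have e : K / ((ε ^ n) ^ 2 * (ε / 3) ^ R.card) * (∏ γ ∈ R, p γ) * (1 / (∏ α ∈ B₀, g α) ^ 2) =
            (K * ∏ γ ∈ R, p γ) / ((ε ^ n * ∏ α ∈ B₀, g α) ^ 2 * (ε / 3) ^ R.card) := by
          rw [mul_pow]
          field_simp
        rw [e, le_div_iff₀ (mul_pos (pow_pos (mul_pos (pow_pos hε _) hG) _) hηN)]
        exact h2
      refine h3.trans (mul_le_mul_of_nonneg_left ?_ (mul_nonneg hc1 hPR0))
      set B' := B₀.filter (fun α => α ∈ Rint R v₁) with hB'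
      set B'' := B₀.filter (fun α => ¬ α ∈ Rint R v₁) with hB''
      have e1 : 1 / (∏ α ∈ B₀, g α) ^ 2 =
          (∏ α ∈ B'', 1 / (r * B α) ^ 2) * ∏ α ∈ B', 1 / (r * A α) ^ 2 := by
        rw [one_div, ← prod_pow, ← prod_inv_distrib,
          ← prod_filter_mul_prod_filter_not B₀ (fun α => α ∈ Rint R v₁), mul_comm]
        congr 1
        · apply prod_congr rfl
          intro α hα
          rw [mem_filter] at hα
          simp only [hg, if_neg hα.2, one_div]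
        · apply prod_congr rfl
          intro α hα
          rw [mem_filter] at hα
          simp only [hg, if_pos hα.2, one_div]
      have hcard : B'.card + B''.card = n := by
        rw [hB', hB'', card_filter_add_card_filter_not, hB₀I'.2.1]
      have hI1 : B'' ∈ Ind R B''.card := by
        rw [mem_Ind]
        exact ⟨(filter_subset _ _).trans hB₀I'.1, rfl, hB₀I'.2.2.mono (by
          exact_mod_cast filter_subset _ _)⟩
      have hI2 : B' ∈ Ind R (n - B''.card) := by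
        rw [mem_Ind]
        exact ⟨(filter_subset _ _).trans hB₀I'.1, by omega, hB₀I'.2.2.mono (by
          exact_mod_cast filter_subset _ _)⟩
      have hI1' := map_Ind w (w2 w hw) B'' hI1
      have hI2' := map_Ind u (w2 u huR) B' hI2
      rw [e1, hS₂]
      have e2 : (∏ α ∈ B'', 1 / (r * B α) ^ 2) * ∏ α ∈ B', 1 / (r * A α) ^ 2 =
          (∏ β ∈ B''.map w.toEquiv.toEmbedding, (1 / (r * nd ((inner ℝ) β b / r)) ^ 2)) *
          ∏ β ∈ B'.map u.toEquiv.toEmbedding, (1 / (r * nd ((inner ℝ) β a / r)) ^ 2) := by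
        rw [prod_map, prod_map]
        rfl
      rw [e2]
      have hF0 : ∀ B₁ B₂ : Finset (V n), 0 ≤ (∏ β ∈ B₁, (1 / (r * nd ((inner ℝ) β b / r)) ^ 2)) *
          ∏ β ∈ B₂, (1 / (r * nd ((inner ℝ) β a / r)) ^ 2) := fun B₁ B₂ =>
        mul_nonneg (prod_nonneg fun β _ => by positivity) (prod_nonneg fun β _ => by positivity)
      refine le_trans ?_ (single_le_sum (f := fun k => ∑ B₁ ∈ Ind R k, ∑ B₂ ∈ Ind R (n - k),
        (∏ β ∈ B₁, (1 / (r * nd ((inner ℝ) β b / r)) ^ 2)) *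
          ∏ β ∈ B₂, (1 / (r * nd ((inner ℝ) β a / r)) ^ 2))
        (fun k _ => sum_nonneg fun B₁ _ => sum_nonneg fun B₂ _ => hF0 B₁ B₂)
        (mem_range.2 (show B''.card < n + 1 by omega)))
      refine le_trans ?_ (single_le_sum (f := fun B₁ => ∑ B₂ ∈ Ind R (n - B''.card),
        (∏ β ∈ B₁, (1 / (r * nd ((inner ℝ) β b / r)) ^ 2)) *
          ∏ β ∈ B₂, (1 / (r * nd ((inner ℝ) β a / r)) ^ 2))
        (fun B₁ _ => sum_nonneg fun B₂ _ => hF0 B₁ B₂) hI1')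
      exact single_le_sum (f := fun B₂ =>
        (∏ β ∈ B''.map w.toEquiv.toEmbedding, (1 / (r * nd ((inner ℝ) β b / r)) ^ 2)) *
          ∏ β ∈ B₂, (1 / (r * nd ((inner ℝ) β a / r)) ^ 2))
        (fun B₂ _ => hF0 _ B₂) hI2'
  rcases hfin with h | h
  · refine h.trans ?_
    have := mul_nonneg (mul_nonneg hc1 hPR0) hS₁0
    have h4 := mul_nonneg (mul_nonneg hc3 hPR0) hS₁0
    have h5 := mul_nonneg (mul_nonneg hc3 hPR0) hS₂0
    nlinarith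
  · refine h.trans ?_
    have := mul_nonneg (mul_nonneg hc1 hPR0) hS₁0
    have h4 := mul_nonneg (mul_nonneg hc1 hPR0) hS₂0
    have h5 := mul_nonneg (mul_nonneg hc3 hPR0) hS₂0
    nlinarith

theorem main : S_W → S_F1 → S_P → S_sub → S_sp → S_ac → S_dd → S_q → S_nd → S_V := by
  intro hW hF1 hPP hsub hsp hac hdd hq hnd n R hR
  have hRS := hR.toIsRS
  obtain ⟨CF, hCF, hF⟩ := cF hF1 R
  obtain ⟨CP, hCP, hPb⟩ := hPP n R hR
  obtain ⟨ε₀, hε₀, hac'⟩ := hac n R hR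
  set ε := min ε₀ 1 with hεd
  have hε : 0 < ε := lt_min hε₀ one_pos
  have hε1 : ε ≤ 1 := min_le_right _ _
  have hac2 : ∀ x : V n, (∀ α ∈ R, |(inner ℝ) α x| ≤ 1) → ∃ v : V n,
      (∀ α ∈ R, |(inner ℝ) α (x - v)| ≤ 1 / 2) ∧ ∀ α ∈ R, α ∉ Rint R v → ε ≤ nd ((inner ℝ) α x) := by
    intro x hx
    obtain ⟨v, h1, h2⟩ := hac' x hx
    exact ⟨v, h1, fun α h3 h4 => (min_le_left _ _).trans (h2 α h3 h4)⟩
  have hcor : ∀ α ∈ R, ∃ q : ℕ, (q : ℝ) * (inner ℝ) α α = 2 := by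
    intro α hα
    obtain ⟨q, -, -, h⟩ := hq n R hR α hα
    exact ⟨q, h⟩
  set C₀ := CF * (2 * Real.pi) ^ R.card / ((ε ^ n) ^ 2 * (ε / 3) ^ R.card) +
        CP * (2 * Real.pi) ^ R.card with hC₀
  have hC₀0 : 0 ≤ C₀ := by
    have := Real.pi_pos
    positivity
  refine ⟨((Wf R).card * (Wf R).card : ℝ) ^ 2 * C₀, by positivity, ?_⟩
  intro r hr a b ha hb γ₀ hγ₀
  obtain ⟨v₁, ha1, ha2⟩ := pt hac2 r hr a ha
  obtain ⟨v₂, hb1, hb2⟩ := pt hac2 r hr b hb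
  have ha0 := hnd n R hR r hr a ha
  have hb0 := hnd n R hR r hr b hb
  have hmain := hdd n R hRS hcor r hr a b ha.1 hb.1 v₁ v₂
  set P := (r : ℝ) ^ R.card * ∏ γ ∈ R, (nd ((inner ℝ) γ a / r) * nd ((inner ℝ) γ b / r)) with hP
  have hP0 : 0 ≤ P := mul_nonneg (by positivity)
    (prod_nonneg fun γ _ => mul_nonneg (nd_nonneg _) (nd_nonneg _))
  set S₁ := ∑ B ∈ Ind R n, ∏ α ∈ B,
      (1 / (1 + (r * nd ((inner ℝ) γ₀ a / r) * nd ((inner ℝ) α b / r)) ^ 2)) with hS₁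
  set S₂ := ∑ k ∈ range (n + 1), ∑ B₁ ∈ Ind R k, ∑ B₂ ∈ Ind R (n - k),
        (∏ β ∈ B₁, (1 / (r * nd ((inner ℝ) β b / r)) ^ 2)) * ∏ β ∈ B₂, (1 / (r * nd ((inner ℝ) β a / r)) ^ 2)
    with hS₂
  have hS₁0 : 0 ≤ S₁ := by
    rw [hS₁]
    exact sum_nonneg fun B _ => prod_nonneg fun α _ => by positivity
  have hS₂0 : 0 ≤ S₂ := by
    rw [hS₂]
    exact sum_nonneg fun k _ => sum_nonneg fun B₁ _ => sum_nonneg fun B₂ _ =>
      mul_nonneg (prod_nonneg fun β _ => by positivity) (prod_nonneg fun β _ => by positivity)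
  have hRS1 : IsRS (Rint R v₁) := (hsub n R hRS v₁).1.1
  have hsubR : Rint R v₁ ⊆ R := (hsub n R hRS v₁).1.2.sub
  have hWsub : Wf (Rint R v₁) ⊆ Wf R := (hW n R hRS).2.2.2.2.2.1 _ hsubR hRS1
  have hX0 : 0 ≤ C₀ * P * (S₁ + S₂) := mul_nonneg (mul_nonneg hC₀0 hP0) (add_nonneg hS₁0 hS₂0)
  set s := Real.sqrt (C₀ * P * (S₁ + S₂)) with hs
  have hs0 : 0 ≤ s := Real.sqrt_nonneg _
  have hs2 : s ^ 2 = C₀ * P * (S₁ + S₂) := Real.sq_sqrt hX0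
  have hterm : ∀ w ∈ Wf R, ∀ u ∈ Wf (Rint R v₁),
      ‖E (Rint (Rint R v₁) (w⁻¹ v₂)) ((2 * Real.pi / r) • u⁻¹ (a - (r : ℝ) • v₁))
        (w⁻¹ (b - (r : ℝ) • v₂), 0)‖ ≤ s := by
    intro w hw u hu
    apply Real.le_sqrt_of_sq_le
    exact term hW hsub hsp hR hCF hCP hε hε1 hF hPb r hr a b v₁ v₂ ha0 hb0 ha1 ha2 hb1 hb2
      γ₀ hγ₀ w u hw hu S₁ S₂ hS₁ hS₂
  have hsum : ‖E R ((2 * Real.pi / r) • a) (b, 0)‖ ≤ ((Wf R).card * (Wf R).card : ℝ) * s := by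
    refine hmain.trans ?_
    calc ∑ w ∈ Wf R, ∑ u ∈ Wf (Rint R v₁),
          ‖E (Rint (Rint R v₁) (w⁻¹ v₂)) ((2 * Real.pi / r) • u⁻¹ (a - (r : ℝ) • v₁))
            (w⁻¹ (b - (r : ℝ) • v₂), 0)‖
        ≤ ∑ w ∈ Wf R, ∑ _u ∈ Wf (Rint R v₁), s :=
          sum_le_sum fun w hw => sum_le_sum fun u hu => hterm w hw u hu
      _ = (Wf R).card * ((Wf (Rint R v₁)).card * s) := by
          simp only [sum_const, nsmul_eq_mul]
      _ ≤ ((Wf R).card * (Wf R).card : ℝ) * s := by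
          rw [mul_assoc]
          apply mul_le_mul_of_nonneg_left _ (Nat.cast_nonneg _)
          apply mul_le_mul_of_nonneg_right _ hs0
          exact_mod_cast card_le_card hWsub
  calc ‖E R ((2 * Real.pi / r) • a) (b, 0)‖ ^ 2
      ≤ (((Wf R).card * (Wf R).card : ℝ) * s) ^ 2 :=
        pow_le_pow_left₀ (norm_nonneg _) hsum 2
    _ = ((Wf R).card * (Wf R).card : ℝ) ^ 2 * (C₀ * P * (S₁ + S₂)) := by rw [mul_pow, hs2]
    _ = _ := by ring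

end H391.AE.Q_V
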