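import Mathlib
import Pool.Agent.H391.AE.S2

set_option autoImplicit false

open Finset
open scoped InnerProductSpace

namespace H391.AE.Q_lat

theorem ortho {n : ℕ} {R B : Finset (V n)} (hB : B ∈ Ind R n) {x : V n}
    (hx : ∀ β ∈ B, inner ℝ β x = 0) : x = 0 := by
  classical
  unfold Ind at hB
  rw [mem_filter] at hB
  obtain ⟨_, hc, hl⟩ := hB
  have hl' : LinearIndependent ℝ (fun y : B => (y : V n)) := hl
  have hcard : Fintype.card B = Module.finrank ℝ (V n) := by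
    rw [Fintype.card_coe, hc, finrank_euclideanSpace, Fintype.card_fin]
  have hsp := hl'.span_eq_top_of_card_eq_finrank' hcard
  have h1 : ∀ y ∈ Submodule.span ℝ (Set.range (fun y : B => (y : V n))), inner ℝ y x = 0 := by
    intro y hy
    induction hy using Submodule.span_induction with
    | mem y hy =>
      obtain ⟨z, rfl⟩ := hy
      exact hx _ z.2
    | zero => rw [inner_zero_left]
    | add a b _ _ ha hb => rw [inner_add_left, ha, hb, add_zero]
    | smul c a _ ha => rw [inner_smul_left, ha, mul_zero]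
  have h2 := h1 x (by rw [hsp]; exact Submodule.mem_top)
  exact inner_self_eq_zero.1 h2

theorem main : S_W → S_q → S_lab → S_lat := by
  classical
  intro _ hq hlab n R hR δ hδ r hr B hB f hf
  have hq' := hq n R hR
  choose! q hq1 hq2 hq3 using hq'
  obtain ⟨hl1, hl2⟩ := hlab n R hR δ hδ r
  have hBR : B ⊆ R := by
    unfold Ind at hB
    rw [mem_filter, mem_powerset] at hB
    exact hB.1
  -- the integers
  have hz : ∀ b ∈ labels R δ r, ∀ β ∈ B, ∃ z : ℤ, (q β : ℝ) * inner ℝ β b = z ∧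
      -(3 * (r : ℤ)) ≤ z ∧ z ≤ 3 * (r : ℤ) := by
    intro b hb β hβ
    have hβR := hBR hβ
    obtain ⟨hw, hg⟩ := hl2 b hb
    obtain ⟨z, hz⟩ := hw β hβR
    have e1 : (q β : ℝ) * inner ℝ β b = z := by
      have := hq3 β hβR
      linear_combination (q β : ℝ) / 2 * hz + (z : ℝ) / 2 * this
    refine ⟨z, e1, ?_⟩
    have h1 := (hg β hβR).2
    have h2 : (q β : ℝ) ≤ 3 := by exact_mod_cast hq2 β hβR
    have h3 : |(z : ℝ)| ≤ 3 * r := by
      rw [← e1, abs_mul, Nat.abs_cast]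
      exact mul_le_mul h2 h1.le (abs_nonneg _) (by norm_num)
    rw [abs_le] at h3
    constructor
    · have : (-(3 * (r : ℝ))) ≤ z := h3.1
      exact_mod_cast this
    · exact_mod_cast h3.2
  set Q : Finset (ℕ × ℤ) := Icc (1 : ℕ) 3 ×ˢ Icc (-(3 * (r : ℤ))) (3 * (r : ℤ)) with hQ
  have hrhs : ∏ β ∈ B, ∑ q ∈ Icc (1 : ℕ) 3, ∑ z ∈ Icc (-(3 * (r : ℤ))) (3 * (r : ℤ)),
      f β ((z : ℝ) / q) = ∑ φ ∈ B.pi (fun _ => Q), ∏ x ∈ B.attach,
        f x.1 (((φ x.1 x.2).2 : ℝ) / ((φ x.1 x.2).1 : ℝ)) := by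
    have h1 : ∀ β ∈ B, ∑ q ∈ Icc (1 : ℕ) 3, ∑ z ∈ Icc (-(3 * (r : ℤ))) (3 * (r : ℤ)),
        f β ((z : ℝ) / q) = ∑ p ∈ Q, f β ((p.2 : ℝ) / (p.1 : ℝ)) := by
      intro β _
      rw [hQ, sum_product]
    rw [prod_congr rfl h1, Finset.prod_sum]
  rw [hrhs]
  set Φ : V n → (β : V n) → β ∈ B → ℕ × ℤ := fun b β _ => (q β, round ((q β : ℝ) * inner ℝ β b))
    with hΦ
  have hval : ∀ b ∈ labels R δ r, ∀ β ∈ B, inner ℝ β b =
      ((round ((q β : ℝ) * inner ℝ β b) : ℤ) : ℝ) / (q β : ℝ) := by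
    intro b hb β hβ
    obtain ⟨z, hz1, _⟩ := hz b hb β hβ
    rw [hz1, round_intCast, ← hz1]
    have : (q β : ℝ) ≠ 0 := by
      have := hq1 β (hBR hβ)
      positivity
    field_simp
  have hinj : Set.InjOn Φ (labels R δ r : Set (V n)) := by
    intro b hb b' hb' hbb
    rw [mem_coe] at hb hb'
    have h1 : ∀ β ∈ B, inner ℝ β (b - b') = 0 := by
      intro β hβ
      have h2 := congrFun (congrFun hbb β) hβ
      simp only [hΦ, Prod.mk.injEq, true_and] at h2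
      rw [inner_sub_right, hval b hb β hβ, hval b' hb' β hβ, h2, sub_self]
    exact sub_eq_zero.1 (ortho hB h1)
  have hlhs : ∑ b ∈ labels R δ r, ∏ β ∈ B, f β (inner ℝ β b) =
      ∑ φ ∈ (labels R δ r).image Φ, ∏ x ∈ B.attach,
        f x.1 (((φ x.1 x.2).2 : ℝ) / ((φ x.1 x.2).1 : ℝ)) := by
    rw [sum_image hinj]
    refine sum_congr rfl fun b hb => ?_
    rw [← prod_attach B]
    refine prod_congr rfl fun x _ => ?_
    simp only [hΦ]
    rw [← hval b hb x.1 x.2]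
  rw [hlhs]
  refine sum_le_sum_of_subset_of_nonneg ?_ ?_
  · intro φ hφ
    obtain ⟨b, hb, rfl⟩ := mem_image.1 hφ
    rw [mem_pi]
    intro β hβ
    obtain ⟨z, hz1, hz2, hz3⟩ := hz b hb β hβ
    simp only [hΦ, hQ]
    rw [mem_product, mem_Icc, mem_Icc]
    simp only
    rw [hz1, round_intCast]
    exact ⟨⟨hq1 β (hBR hβ), hq2 β (hBR hβ)⟩, hz2, hz3⟩
  · intro φ _ _
    exact prod_nonneg fun x _ => hf _ _

end H391.AE.Q_lat
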