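import Mathlib
import Pool.Agent.H391.AE.S2

set_option autoImplicit false

open Finset

namespace H391.AE.Q_one

/-- the integer part -/
noncomputable def rd (q r : ℕ) (z : ℤ) : ℤ := round ((z : ℝ) / q / r)

/-- the remainder -/
noncomputable def jj (q r : ℕ) (z : ℤ) : ℤ := z - ((q * r : ℕ) : ℤ) * rd q r z

theorem nd_eq {q r : ℕ} (hq : 1 ≤ q) (hr : 1 ≤ r) (z : ℤ) :
    nd ((z : ℝ) / q / r) = ((jj q r z).natAbs : ℝ) / ((q * r : ℕ) : ℝ) := by
  have hq0 : (0 : ℝ) < q := by exact_mod_cast hq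
  have hr0 : (0 : ℝ) < r := by exact_mod_cast hr
  have h1 : (((jj q r z).natAbs : ℕ) : ℝ) = |(jj q r z : ℝ)| := by
    rw [Nat.cast_natAbs, Int.cast_abs]
  have h2 : (jj q r z : ℝ) = ((q * r : ℕ) : ℝ) * ((z : ℝ) / q / r - (rd q r z : ℝ)) := by
    unfold jj
    push_cast
    field_simp
  have h3 : (0 : ℝ) < ((q * r : ℕ) : ℝ) := by
    push_cast
    positivity
  rw [h1, h2, abs_mul, abs_of_pos h3, mul_div_cancel_left₀ _ h3.ne']
  rfl

theorem jj_le {q r : ℕ} (hq : 1 ≤ q) (hr : 1 ≤ r) (z : ℤ) : (jj q r z).natAbs ≤ q * r := by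
  have h := nd_eq hq hr z
  have h1 : nd ((z : ℝ) / q / r) ≤ 1 / 2 := abs_sub_round _
  have h3 : (0 : ℝ) < ((q * r : ℕ) : ℝ) := by
    have : 0 < q * r := Nat.mul_pos hq hr
    exact_mod_cast this
  rw [h, div_le_iff₀ h3] at h1
  have h4 : ((jj q r z).natAbs : ℝ) ≤ ((q * r : ℕ) : ℝ) := by linarith
  exact_mod_cast h4

theorem rd_mem {q r : ℕ} (hq : 1 ≤ q) (hr : 1 ≤ r) {z : ℤ}
    (hz : z ∈ Icc (-(3 * (r : ℤ))) (3 * (r : ℤ))) : rd q r z ∈ Icc (-3 : ℤ) 3 := by
  have hq0 : (1 : ℝ) ≤ q := by exact_mod_cast hq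
  have hr0 : (0 : ℝ) < r := by exact_mod_cast hr
  rw [Finset.mem_Icc] at hz
  have hz1 : -(3 * (r : ℝ)) ≤ (z : ℝ) := by exact_mod_cast hz.1
  have hz2 : (z : ℝ) ≤ 3 * (r : ℝ) := by exact_mod_cast hz.2
  have h1 : (z : ℝ) / q / r ≤ 3 := by
    rw [div_le_iff₀ hr0, div_le_iff₀ (by linarith)]
    nlinarith
  have h2 : -3 ≤ (z : ℝ) / q / r := by
    rw [le_div_iff₀ hr0, le_div_iff₀ (by linarith)]
    nlinarith
  have h3 := abs_le.1 (abs_sub_round ((z : ℝ) / q / r))
  have h4 : (rd q r z : ℝ) < 4 := by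
    unfold rd
    linarith [h3.1]
  have h5 : (-4 : ℝ) < (rd q r z : ℝ) := by
    unfold rd
    linarith [h3.2]
  have h6 : rd q r z < 4 := by exact_mod_cast h4
  have h7 : -4 < rd q r z := by exact_mod_cast h5
  rw [Finset.mem_Icc]
  constructor <;> omega

theorem count {q r : ℕ} (hq : 1 ≤ q) (hr : 1 ≤ r) (F : ℕ → ℝ) (hF : ∀ j, 0 ≤ F j) :
    ∑ z ∈ Icc (-(3 * (r : ℤ))) (3 * (r : ℤ)), F (jj q r z).natAbs ≤
      14 * ∑ j ∈ range (q * r + 1), F j := by
  classical
  set s := Icc (-(3 * (r : ℤ))) (3 * (r : ℤ)) with hs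
  set φ : ℤ → ℤ × (Bool × ℕ) := fun z => (rd q r z, (decide (0 ≤ jj q r z), (jj q r z).natAbs))
    with hφ
  set T : Finset (ℤ × (Bool × ℕ)) := Icc (-3 : ℤ) 3 ×ˢ ((univ : Finset Bool) ×ˢ range (q * r + 1))
    with hT
  have hinj : Set.InjOn φ (s : Set ℤ) := by
    intro z _ z' _ h
    simp only [hφ, Prod.mk.injEq, decide_eq_decide] at h
    obtain ⟨h1, h2, h3⟩ := h
    have h4 : jj q r z = jj q r z' := by omega
    have h5 : z = jj q r z + ((q * r : ℕ) : ℤ) * rd q r z := by
      unfold jj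
      ring
    have h6 : z' = jj q r z' + ((q * r : ℕ) : ℤ) * rd q r z' := by
      unfold jj
      ring
    rw [h5, h6, h4, h1]
  have himg : s.image φ ⊆ T := by
    intro t ht
    obtain ⟨z, hz, rfl⟩ := Finset.mem_image.1 ht
    rw [hT, Finset.mem_product, Finset.mem_product, Finset.mem_range]
    refine ⟨rd_mem hq hr hz, Finset.mem_univ _, ?_⟩
    have := jj_le hq hr z
    simp only [hφ]
    omega
  calc ∑ z ∈ s, F (jj q r z).natAbs = ∑ t ∈ s.image φ, F t.2.2 :=
        (Finset.sum_image (f := fun t : ℤ × (Bool × ℕ) => F t.2.2) hinj).symm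
    _ ≤ ∑ t ∈ T, F t.2.2 := Finset.sum_le_sum_of_subset_of_nonneg himg fun t _ _ => hF _
    _ = 14 * ∑ j ∈ range (q * r + 1), F j := by
        rw [hT, Finset.sum_product]
        simp only [Finset.sum_product]
        rw [Finset.sum_const, Finset.sum_const]
        have h1 : (Icc (-3 : ℤ) 3).card = 7 := by decide
        have h2 : (univ : Finset Bool).card = 2 := by decide
        rw [h1, h2]
        simp only [nsmul_eq_mul]
        push_cast
        ring

theorem sum_one {s : ℝ} (hs : 0 < s) (n : ℕ) :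
    ∑ j ∈ range (n + 1), 1 / (1 + (s * j) ^ 2) ≤ 1 + 2 / s * (1 - 1 / (1 + s * n)) := by
  induction n with
  | zero => simp
  | succ n ih =>
    rw [Finset.sum_range_succ]
    have hn : (0 : ℝ) ≤ n := Nat.cast_nonneg n
    have h1 : (0 : ℝ) < 1 + s * n := by positivity
    have h2 : (0 : ℝ) < 1 + s * ((n : ℝ) + 1) := by positivity
    have h3 : 1 / (1 + (s * ((n : ℝ) + 1)) ^ 2) ≤ 2 / s * (1 / (1 + s * n) - 1 / (1 + s * ((n : ℝ) + 1))) := by
      have e : 2 / s * (1 / (1 + s * n) - 1 / (1 + s * ((n : ℝ) + 1))) =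
          2 / ((1 + s * n) * (1 + s * ((n : ℝ) + 1))) := by
        field_simp
        ring
      rw [e, div_le_div_iff₀ (by positivity) (by positivity)]
      have h4 : (1 + s * n) * (1 + s * ((n : ℝ) + 1)) ≤ (1 + s * ((n : ℝ) + 1)) * (1 + s * ((n : ℝ) + 1)) := by
        refine mul_le_mul_of_nonneg_right ?_ h2.le
        nlinarith
      nlinarith [sq_nonneg (1 - s * ((n : ℝ) + 1))]
    push_cast
    have e2 : 1 + 2 / s * (1 - 1 / (1 + s * ((n : ℝ) + 1))) =
        1 + 2 / s * (1 - 1 / (1 + s * n)) +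
          2 / s * (1 / (1 + s * n) - 1 / (1 + s * ((n : ℝ) + 1))) := by ring
    rw [e2]
    linarith

theorem sum_two (n : ℕ) :
    ∑ j ∈ range (n + 1), (if j = 0 then (0 : ℝ) else 9 / (j : ℝ) ^ 2) ≤ 18 := by
  have h : ∑ j ∈ range (n + 2), (if j = 0 then (0 : ℝ) else 9 / (j : ℝ) ^ 2) ≤
      18 - 9 / ((n : ℝ) + 1) := by
    induction n with
    | zero =>
      rw [Finset.sum_range_succ, Finset.sum_range_one]
      norm_num
    | succ n ih =>
      rw [Finset.sum_range_succ]
      have hn : (0 : ℝ) ≤ n := Nat.cast_nonneg n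
      rw [if_neg (by omega)]
      push_cast
      have e : (18 : ℝ) - 9 / ((n : ℝ) + 1 + 1) =
          18 - 9 / ((n : ℝ) + 1) + 9 / (((n : ℝ) + 1) * ((n : ℝ) + 1 + 1)) := by
        field_simp
        ring
      rw [e]
      have h3 : 9 / ((n : ℝ) + 1 + 1) ^ 2 ≤ 9 / (((n : ℝ) + 1) * ((n : ℝ) + 1 + 1)) := by
        refine div_le_div_of_nonneg_left (by norm_num) (by positivity) ?_
        nlinarith
      have e3 : (n : ℝ) + 2 = (n : ℝ) + 1 + 1 := by ring
      try rw [e3]
      linarith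
  refine le_trans (Finset.sum_le_sum_of_subset_of_nonneg (Finset.range_mono (by omega : n + 1 ≤ n + 2))
    fun j _ _ => ?_) (h.trans ?_)
  · split_ifs
    · exact le_rfl
    · positivity
  · have : (0 : ℝ) ≤ 9 / ((n : ℝ) + 1) := by positivity
    linarith

theorem main : S_one := by
  refine ⟨756, by norm_num, fun r hr => ⟨fun M hM hMr => ?_, ?_⟩⟩
  · have hr0 : (0 : ℝ) < r := by exact_mod_cast hr
    have hq : ∀ q ∈ Icc (1 : ℕ) 3, ∑ z ∈ Icc (-(3 * (r : ℤ))) (3 * (r : ℤ)),
        1 / (1 + (M * nd ((z : ℝ) / q / r)) ^ 2) ≤ 126 * (r / M) := by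
      intro q hq
      rw [Finset.mem_Icc] at hq
      have hN : (0 : ℝ) < ((q * r : ℕ) : ℝ) := by
        have : 0 < q * r := Nat.mul_pos hq.1 hr
        exact_mod_cast this
      have hq0 : (1 : ℝ) ≤ q := by exact_mod_cast hq.1
      have hq3 : (q : ℝ) ≤ 3 := by exact_mod_cast hq.2
      set s : ℝ := M / ((q * r : ℕ) : ℝ) with hs
      have hs0 : 0 < s := div_pos hM hN
      have hs1 : s ≤ 1 := by
        rw [hs, div_le_one hN]
        push_cast
        nlinarith
      have h1 := count hq.1 hr (fun j => 1 / (1 + (s * j) ^ 2)) (fun j => by positivity)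
      have h2 := sum_one hs0 (q * r)
      have h3 : 1 + 2 / s * (1 - 1 / (1 + s * ((q * r : ℕ) : ℝ))) ≤ 3 / s := by
        have h4 : (0 : ℝ) ≤ 1 / (1 + s * ((q * r : ℕ) : ℝ)) := by positivity
        have h5 : (1 : ℝ) ≤ 1 / s := by rw [le_div_iff₀ hs0]; linarith
        have h6 : (0 : ℝ) ≤ 2 / s := by positivity
        have h7 : 2 / s * (1 - 1 / (1 + s * ((q * r : ℕ) : ℝ))) ≤ 2 / s * 1 :=
          mul_le_mul_of_nonneg_left (by linarith) h6
        have e : 3 / s = 1 / s + 2 / s * 1 := by ring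
        rw [e]
        linarith
      have h8 : 3 / s ≤ 9 * (r / M) := by
        rw [hs]
        have e : 3 / (M / ((q * r : ℕ) : ℝ)) = 3 * q * (r / M) := by
          push_cast
          field_simp
        rw [e]
        refine mul_le_mul_of_nonneg_right ?_ (by positivity)
        linarith
      calc ∑ z ∈ Icc (-(3 * (r : ℤ))) (3 * (r : ℤ)), 1 / (1 + (M * nd ((z : ℝ) / q / r)) ^ 2)
          = ∑ z ∈ Icc (-(3 * (r : ℤ))) (3 * (r : ℤ)),
            1 / (1 + (s * ((jj q r z).natAbs : ℝ)) ^ 2) := by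
            refine Finset.sum_congr rfl fun z _ => ?_
            rw [nd_eq hq.1 hr, hs]
            congr 3
            ring
        _ ≤ 14 * ∑ j ∈ range (q * r + 1), 1 / (1 + (s * (j : ℝ)) ^ 2) := h1
        _ ≤ 14 * (9 * (r / M)) := by
            refine mul_le_mul_of_nonneg_left ?_ (by norm_num)
            exact h2.trans (h3.trans h8)
        _ = 126 * (r / M) := by ring
    refine (Finset.sum_le_sum hq).trans ?_
    rw [Finset.sum_const]
    have h1 : (Icc (1 : ℕ) 3).card = 3 := by decide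
    rw [h1, nsmul_eq_mul]
    have h2 : 0 ≤ r / M := by positivity
    push_cast
    linarith
  · have hr0 : (0 : ℝ) < r := by exact_mod_cast hr
    have hq : ∀ q ∈ Icc (1 : ℕ) 3, ∑ z ∈ Icc (-(3 * (r : ℤ))) (3 * (r : ℤ)),
        (if 1 / (3 * (r : ℝ)) ≤ nd ((z : ℝ) / q / r) then 1 / (r * nd ((z : ℝ) / q / r)) ^ 2
          else 0) ≤ 252 := by
      intro q hq
      rw [Finset.mem_Icc] at hq
      have hN : (0 : ℝ) < ((q * r : ℕ) : ℝ) := by
        have : 0 < q * r := Nat.mul_pos hq.1 hr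
        exact_mod_cast this
      have hq0 : (1 : ℝ) ≤ q := by exact_mod_cast hq.1
      have hq3 : (q : ℝ) ≤ 3 := by exact_mod_cast hq.2
      have h1 := count hq.1 hr (fun j => if j = 0 then (0 : ℝ) else 9 / (j : ℝ) ^ 2)
        (fun j => by
          split_ifs
          · exact le_rfl
          · positivity)
      have h2 := sum_two (q * r)
      calc ∑ z ∈ Icc (-(3 * (r : ℤ))) (3 * (r : ℤ)),
          (if 1 / (3 * (r : ℝ)) ≤ nd ((z : ℝ) / q / r) then 1 / (r * nd ((z : ℝ) / q / r)) ^ 2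
            else 0)
          ≤ ∑ z ∈ Icc (-(3 * (r : ℤ))) (3 * (r : ℤ)),
            (if (jj q r z).natAbs = 0 then (0 : ℝ) else 9 / ((jj q r z).natAbs : ℝ) ^ 2) := by
            refine Finset.sum_le_sum fun z _ => ?_
            rw [nd_eq hq.1 hr]
            by_cases h0 : (jj q r z).natAbs = 0
            · rw [if_pos h0, h0]
              have h3 : ¬ (1 / (3 * (r : ℝ)) ≤ ((0 : ℕ) : ℝ) / ((q * r : ℕ) : ℝ)) := by
                rw [Nat.cast_zero, zero_div, not_le]
                positivity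
              rw [if_neg h3]
            · rw [if_neg h0]
              have hj : (0 : ℝ) < ((jj q r z).natAbs : ℝ) := by
                exact_mod_cast Nat.pos_of_ne_zero h0
              split_ifs
              · have e : (r : ℝ) * (((jj q r z).natAbs : ℝ) / ((q * r : ℕ) : ℝ)) =
                    ((jj q r z).natAbs : ℝ) / q := by
                  push_cast
                  field_simp
                rw [e, div_pow, one_div_div]
                refine div_le_div_of_nonneg_right ?_ (by positivity)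
                nlinarith
              · positivity
        _ ≤ 14 * ∑ j ∈ range (q * r + 1), (if j = 0 then (0 : ℝ) else 9 / (j : ℝ) ^ 2) := h1
        _ ≤ 14 * 18 := mul_le_mul_of_nonneg_left h2 (by norm_num)
        _ = 252 := by norm_num
    refine (Finset.sum_le_sum hq).trans ?_
    rw [Finset.sum_const]
    have h1 : (Icc (1 : ℕ) 3).card = 3 := by decide
    rw [h1, nsmul_eq_mul]
    norm_num

end H391.AE.Q_one
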