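import Mathlib
import Pool.Agent.H391.AE.S2

/-!
# Sums over labels, n independent directions (helper668)
-/

set_option autoImplicit false

open Finset
open scoped InnerProductSpace

namespace H391.AE.Q_s4

open H391.AE

theorem card_ind {n : ℕ} {R : Finset (V n)} {k : ℕ} {B : Finset (V n)} (h : B ∈ Ind R k) :
    B.card = k := by
  classical
  unfold Ind at h
  exact (Finset.mem_filter.1 h).2.1

theorem main : S_lat → S_one → S_s4 := by
  intro hlat hone n R hR δ hδ
  obtain ⟨C, hC, h1⟩ := hone
  refine ⟨C ^ n, pow_nonneg hC n, ?_⟩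
  intro r hr M hM hMr B hB
  have h2 := hlat n R hR δ hδ r hr B hB (fun _ t => 1 / (1 + (M * nd (t / r)) ^ 2))
    (fun _ t => by positivity)
  refine h2.trans ?_
  have h3 := (h1 r hr).1 M hM hMr
  refine (Finset.prod_le_prod (fun β _ => ?_) (fun β _ => h3)).trans (le_of_eq ?_)
  · exact Finset.sum_nonneg fun q _ => Finset.sum_nonneg fun z _ => by positivity
  · rw [Finset.prod_const, card_ind hB, mul_pow]

end H391.AE.Q_s4

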