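import Mathlib
import Pool.Agent.H391.AE.S2

set_option autoImplicit false

open Finset
open scoped InnerProductSpace

namespace H391.AE.Q_s5

/-- an independent set of roots extends to a basis in R -/
theorem extend_ind {n : ℕ} {R : Finset (V n)} (hR : Simple R) {k : ℕ} {B : Finset (V n)}
    (hB : B ∈ Ind R k) : ∃ B' ∈ Ind R n, B ⊆ B' := by
  classical
  unfold Ind at hB
  rw [mem_filter, mem_powerset] at hB
  obtain ⟨hBR, hk, hind⟩ := hB
  obtain ⟨b, hbR, hBb, hsp, hb⟩ := exists_linearIndepOn_id_extension (K := ℝ) hind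
    (t := (R : Set (V n))) (by exact_mod_cast hBR)
  have hfin : b.Finite := (Finset.finite_toSet R).subset hbR
  obtain ⟨B', rfl⟩ : ∃ B' : Finset (V n), (B' : Set (V n)) = b := ⟨hfin.toFinset, by simp⟩
  refine ⟨B', ?_, by exact_mod_cast hBb⟩
  unfold Ind
  rw [mem_filter, mem_powerset]
  refine ⟨by exact_mod_cast hbR, ?_, hb⟩
  have h1 := finrank_span_finset_eq_card hb
  have h2 : Submodule.span ℝ (B' : Set (V n)) = ⊤ := by
    rw [eq_top_iff, ← hR.span_top]
    exact Submodule.span_le.2 hsp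
  rw [h2, finrank_top, finrank_euclideanSpace_fin] at h1
  exact h1.symm

theorem main : S_lat → S_one → S_nd → S_lab → S_s5 := by
  classical
  intro hlat hone hnd hlab n R hR δ hδ
  obtain ⟨C, hC, hone⟩ := hone
  refine ⟨(C + 21) ^ n, by positivity, fun r hr k hk B hB => ?_⟩
  have hr0 : (0 : ℝ) < r := by exact_mod_cast hr
  have hr1 : (1 : ℝ) ≤ r := by exact_mod_cast hr
  obtain ⟨B', hB', hBB⟩ := extend_ind hR hB
  obtain ⟨f, hf⟩ : ∃ f : V n → ℝ → ℝ, f = fun β t =>
    if β ∈ B then (if 1 / (3 * (r : ℝ)) ≤ nd (t / r) then 1 / (r * nd (t / r)) ^ 2 else 0) else 1 :=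
    ⟨_, rfl⟩
  have hf0 : ∀ β t, 0 ≤ f β t := by
    intro β t
    rw [hf]
    dsimp only
    split_ifs
    · positivity
    · exact le_rfl
    · exact zero_le_one
  have h1 : ∑ b ∈ labels R δ r, ∏ β ∈ B, (1 / (r * nd (inner ℝ β b / r)) ^ 2) =
      ∑ b ∈ labels R δ r, ∏ β ∈ B', f β (inner ℝ β b) := by
    refine Finset.sum_congr rfl fun b hb => ?_
    have hg := (hlab n R hR δ hδ r).2 b hb
    have e1 : ∏ β ∈ B', f β (inner ℝ β b) = ∏ β ∈ B, f β (inner ℝ β b) := by
      symm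
      refine Finset.prod_subset hBB fun β _ hβ => ?_
      rw [hf]
      exact if_neg hβ
    rw [e1]
    refine Finset.prod_congr rfl fun β hβ => ?_
    have hβR : β ∈ R := by
      unfold Ind at hB
      rw [mem_filter, mem_powerset] at hB
      exact hB.1 hβ
    have h2 := hnd n R hR r hr b hg β hβR
    rw [hf]
    dsimp only
    rw [if_pos hβ, if_pos h2]
  rw [h1]
  refine (hlat n R hR δ hδ r hr B' hB' f hf0).trans ?_
  -- the factors
  have h3 : ∀ β ∈ B', (∑ q ∈ Icc (1 : ℕ) 3, ∑ z ∈ Icc (-(3 * (r : ℤ))) (3 * (r : ℤ)),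
      f β ((z : ℝ) / q)) ≤ if β ∈ B then C + 21 else (C + 21) * r := by
    intro β _
    by_cases hβ : β ∈ B
    · rw [if_pos hβ]
      have h4 := (hone r hr).2
      have h5 : (∑ q ∈ Icc (1 : ℕ) 3, ∑ z ∈ Icc (-(3 * (r : ℤ))) (3 * (r : ℤ)),
          f β ((z : ℝ) / q)) = ∑ q ∈ Icc (1 : ℕ) 3, ∑ z ∈ Icc (-(3 * (r : ℤ))) (3 * (r : ℤ)),
          (if 1 / (3 * (r : ℝ)) ≤ nd ((z : ℝ) / q / r) then
            1 / (r * nd ((z : ℝ) / q / r)) ^ 2 else 0) := by
        refine Finset.sum_congr rfl fun q _ => Finset.sum_congr rfl fun z _ => ?_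
        rw [hf]
        dsimp only
        rw [if_pos hβ]
      rw [h5]
      refine le_trans ?_ (h4.trans (by linarith))
      exact le_of_eq (Finset.sum_congr rfl fun q _ => Finset.sum_congr rfl fun z _ => by congr)
    · rw [if_neg hβ]
      have h5 : (∑ q ∈ Icc (1 : ℕ) 3, ∑ z ∈ Icc (-(3 * (r : ℤ))) (3 * (r : ℤ)),
          f β ((z : ℝ) / q)) = ∑ q ∈ Icc (1 : ℕ) 3, ∑ z ∈ Icc (-(3 * (r : ℤ))) (3 * (r : ℤ)),
          (1 : ℝ) := by
        refine Finset.sum_congr rfl fun q _ => Finset.sum_congr rfl fun z _ => ?_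
        rw [hf]
        exact if_neg hβ
      rw [h5]
      simp only [Finset.sum_const, nsmul_eq_mul, mul_one, Int.card_Icc, Nat.card_Icc]
      have h6 : (((3 * (r : ℤ) + 1 - -(3 * (r : ℤ))).toNat : ℕ) : ℝ) = 6 * r + 1 := by
        have h7 : (3 * (r : ℤ) + 1 - -(3 * (r : ℤ))).toNat = 6 * r + 1 := by omega
        rw [h7]
        push_cast
        ring
      rw [h6]
      push_cast
      nlinarith [mul_nonneg hC hr0.le]
  have h8 : ∏ β ∈ B', (∑ q ∈ Icc (1 : ℕ) 3, ∑ z ∈ Icc (-(3 * (r : ℤ))) (3 * (r : ℤ)),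
      f β ((z : ℝ) / q)) ≤ ∏ β ∈ B', (if β ∈ B then C + 21 else (C + 21) * r) :=
    Finset.prod_le_prod (fun β _ => Finset.sum_nonneg fun q _ => Finset.sum_nonneg fun z _ =>
      hf0 _ _) h3
  refine h8.trans (le_of_eq ?_)
  have hcB : B.card = k := by
    unfold Ind at hB
    exact (mem_filter.1 hB).2.1
  have hcB' : B'.card = n := by
    unfold Ind at hB'
    exact (mem_filter.1 hB').2.1
  have h9 : (B'.filter fun β => β ∈ B) = B := by
    ext β
    rw [mem_filter]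
    exact ⟨fun h => h.2, fun h => ⟨hBB h, h⟩⟩
  have h10 : (B'.filter fun β => ¬ β ∈ B).card = n - k := by
    have h11 := Finset.card_filter_add_card_filter_not (s := B') (fun β => β ∈ B)
    rw [h9, hcB, hcB'] at h11
    omega
  rw [Finset.prod_ite, Finset.prod_const, Finset.prod_const, h9, hcB, h10, mul_pow, ← mul_assoc,
    ← pow_add, Nat.add_sub_cancel' hk]

end H391.AE.Q_s5
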