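import Mathlib
import Pool.Agent.H391.AE.S2

set_option autoImplicit false

open Finset
open scoped InnerProductSpace

namespace H391.AE.Q_sup

open H391.AE

theorem nd_nonneg (x : ℝ) : 0 ≤ nd x := abs_nonneg _

theorem nd_le (x : ℝ) : nd x ≤ 1 / 2 := abs_sub_round x

theorem nd_le_sin (x : ℝ) : nd x ≤ |Real.sin (Real.pi * x)| := by
  have h1 : |Real.sin (Real.pi * x)| = |Real.sin (Real.pi * (x - round x))| := by
    have : Real.pi * (x - round x) = Real.pi * x - (round x : ℤ) * Real.pi := by ring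
    rw [this, Real.sin_sub_int_mul_pi, abs_mul]
    rw [abs_zpow, abs_neg, abs_one, one_zpow, one_mul]
  rw [h1]
  have hpi := Real.pi_pos
  have h2 : |Real.pi * (x - round x)| ≤ Real.pi / 2 := by
    rw [abs_mul, abs_of_pos hpi]
    have := nd_le x
    unfold nd at this
    nlinarith
  have h3 := Real.mul_abs_le_abs_sin h2
  have h4 : 2 / Real.pi * |Real.pi * (x - round x)| = 2 * |x - round x| := by
    rw [abs_mul, abs_of_pos hpi]
    field_simp
  rw [h4] at h3
  have h5 : 0 ≤ |x - round x| := abs_nonneg _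
  unfold nd
  linarith

theorem main : S_U → S_nd → S_lab → S_sup := by
  classical
  intro hU hnd hlab n R hR δ hδ
  obtain ⟨C1, hC1, hU⟩ := hU n R hR
  obtain ⟨α₀, hα₀, hα₀2⟩ := hR.long
  refine ⟨C1, hC1, ?_⟩
  intro r hr1 a ha b hb
  have hrpos : (0 : ℝ) < r := by exact_mod_cast (show 0 < r by omega)
  obtain ⟨hl1, hl2⟩ := hlab n R hR δ hδ r
  refine ⟨?_, ?_⟩
  · unfold G
    apply div_nonneg (by positivity)
    apply mul_nonneg (by positivity)
    exact Finset.prod_nonneg (fun α _ => by positivity)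
  have h1 := hU r hr1 a b (hl2 a ha) (hl2 b hb) α₀ hα₀ α₀ hα₀
  have hndpos : ∀ c ∈ labels R δ r, ∀ γ ∈ R, 0 < nd (inner ℝ γ c / r) := by
    intro c hc γ hγ
    have := hnd n R hR r hr1 c (hl2 c hc) γ hγ
    have h3 : (0 : ℝ) < 1 / (3 * (r : ℝ)) := by positivity
    linarith
  have hPpos : 0 < ∏ γ ∈ R, (nd (inner ℝ γ a / r) * nd (inner ℝ γ b / r)) :=
    Finset.prod_pos (fun γ hγ => mul_pos (hndpos a ha γ hγ) (hndpos b hb γ hγ))
  have hPle : ∏ γ ∈ R, (nd (inner ℝ γ a / r) * nd (inner ℝ γ b / r)) ≤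
      ∏ α ∈ R, (|Real.sin (Real.pi * (inner ℝ α a / r))| *
        |Real.sin (Real.pi * (inner ℝ α b / r))|) := by
    apply Finset.prod_le_prod
    · intro γ hγ
      exact mul_nonneg (nd_nonneg _) (nd_nonneg _)
    · intro γ hγ
      exact mul_le_mul (nd_le_sin _) (nd_le_sin _) (nd_nonneg _) (abs_nonneg _)
  have hrR : 0 < (r : ℝ) ^ R.card := by positivity
  have h2 : ‖E R ((2 * Real.pi / r) • a) (b, 0)‖ ^ 2 ≤
      C1 * (r : ℝ) ^ R.card * ∏ γ ∈ R, (nd (inner ℝ γ a / r) * nd (inner ℝ γ b / r)) := by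
    refine le_trans ?_ h1
    have h3 : 0 ≤ ‖E R ((2 * Real.pi / r) • a) (b, 0)‖ ^ 2 := by positivity
    have h4 : 0 ≤ (r * nd (inner ℝ α₀ a / r) * nd (inner ℝ α₀ b / r)) ^ 2 := by positivity
    exact le_mul_of_one_le_right h3 (by linarith)
  unfold G
  have hD : 0 < (r : ℝ) ^ R.card * ∏ α ∈ R, (|Real.sin (Real.pi * (inner ℝ α a / r))| *
        |Real.sin (Real.pi * (inner ℝ α b / r))|) :=
    mul_pos hrR (lt_of_lt_of_le hPpos hPle)
  rw [div_le_iff₀ hD]
  refine le_trans h2 ?_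
  rw [mul_assoc]
  exact mul_le_mul_of_nonneg_left (mul_le_mul_of_nonneg_left hPle hrR.le) hC1

end H391.AE.Q_sup
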