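import Mathlib
import Pool.Agent.H391.AE.S2

set_option autoImplicit false

open Finset
open scoped InnerProductSpace

namespace H391.AE.Q_up1

open H391.AE

theorem nd_nonneg (x : ℝ) : 0 ≤ nd x := abs_nonneg _

theorem nd_le (x : ℝ) : nd x ≤ 1 / 2 := abs_sub_round x

theorem nd_le_sin (x : ℝ) : nd x ≤ |Real.sin (Real.pi * x)| := by
  have h1 : |Real.sin (Real.pi * x)| = |Real.sin (Real.pi * (x - round x))| := by
    have : Real.pi * (x - round x) = Real.pi * x - (round x : ℤ) * Real.pi := by ring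
    rw [this, Real.sin_sub_int_mul_pi, abs_mul]
    rw [abs_zpow, abs_neg, abs_one, one_zpow, one_mul]
  rw [h1]
  have hpi := Real.pi_pos
  have h2 : |Real.pi * (x - round x)| ≤ Real.pi / 2 := by
    rw [abs_mul, abs_of_pos hpi]
    have := nd_le x
    unfold nd at this
    nlinarith
  have h3 := Real.mul_abs_le_abs_sin h2
  have h4 : 2 / Real.pi * |Real.pi * (x - round x)| = 2 * |x - round x| := by
    rw [abs_mul, abs_of_pos hpi]
    field_simp
  rw [h4] at h3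
  have h5 : 0 ≤ |x - round x| := abs_nonneg _
  unfold nd
  linarith

/-- exchange of the sums -/
theorem exch {ι κ : Type} (L : Finset ι) (s : Finset ℕ) (I J : ℕ → Finset κ) (P : κ → ι → ℝ) :
    ∑ a ∈ L, ∑ b ∈ L, ∑ k ∈ s, ∑ B₁ ∈ I k, ∑ B₂ ∈ J k, P B₁ b * P B₂ a =
      ∑ k ∈ s, ∑ B₁ ∈ I k, ∑ B₂ ∈ J k, (∑ b ∈ L, P B₁ b) * ∑ a ∈ L, P B₂ a := by
  have h1 : ∀ a ∈ L, ∑ b ∈ L, ∑ k ∈ s, ∑ B₁ ∈ I k, ∑ B₂ ∈ J k, P B₁ b * P B₂ a =
      ∑ k ∈ s, ∑ B₁ ∈ I k, ∑ B₂ ∈ J k, (∑ b ∈ L, P B₁ b) * P B₂ a := by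
    intro a _
    rw [Finset.sum_comm]
    refine Finset.sum_congr rfl fun k _ => ?_
    rw [Finset.sum_comm]
    refine Finset.sum_congr rfl fun B₁ _ => ?_
    rw [Finset.sum_comm]
    refine Finset.sum_congr rfl fun B₂ _ => ?_
    rw [← Finset.sum_mul]
  rw [Finset.sum_congr rfl h1, Finset.sum_comm]
  refine Finset.sum_congr rfl fun k _ => ?_
  rw [Finset.sum_comm]
  refine Finset.sum_congr rfl fun B₁ _ => ?_
  rw [Finset.sum_comm]
  refine Finset.sum_congr rfl fun B₂ _ => ?_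
  rw [← Finset.mul_sum]

theorem main : S_V → S_nd → S_lab → S_cnt → S_s4 → S_s5 → S_dy → S_up1 := by
  classical
  intro hV hnd hlab hcnt h4 h5 hdy n R hR δ hδ
  obtain ⟨C1, hC1, hV⟩ := hV n R hR
  obtain ⟨C2, hC2, hcnt⟩ := hcnt n R hR δ hδ
  obtain ⟨C4, hC4, h4⟩ := h4 n R hR δ hδ
  obtain ⟨C5, hC5, h5⟩ := h5 n R hR δ hδ
  obtain ⟨α₀, hα₀, hα₀2⟩ := hR.long
  have hn : 1 ≤ n := by
    by_contra hc
    have h0 : n = 0 := by omega
    subst h0
    have : α₀ = 0 := Subsingleton.elim _ _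
    rw [this, inner_zero_left] at hα₀2
    norm_num at hα₀2
  have hne : R.Nonempty := ⟨α₀, hα₀⟩
  obtain ⟨C6, hC6, hdy⟩ := hdy n hn C2 hC2
  obtain ⟨K, hK⟩ : ∃ K : ℝ, K = ∑ k ∈ range (n + 1), ∑ _B₁ ∈ Ind R k, ∑ _B₂ ∈ Ind R (n - k), (C5 * C5) :=
    ⟨_, rfl⟩
  have hK0 : 0 ≤ K := by
    rw [hK]
    exact Finset.sum_nonneg fun _ _ => Finset.sum_nonneg fun _ _ => Finset.sum_nonneg fun _ _ =>
      mul_nonneg hC5 hC5
  have hlog2 : 0 < Real.log 2 := Real.log_pos (by norm_num)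
  refine ⟨C1 * (((Ind R n).card : ℝ) * C4 * C6 + K / Real.log 2), by positivity, ?_⟩
  intro r hr
  have hr1 : 1 ≤ r := by omega
  have hrpos : (0 : ℝ) < r := by exact_mod_cast (show 0 < r by omega)
  obtain ⟨hl1, hl2⟩ := hlab n R hR δ hδ r
  -- the maximum
  let m : V n → ℝ := fun a => R.sup' hne (fun α => nd (inner ℝ α a / r))
  have hm1 : ∀ a, ∀ α ∈ R, nd (inner ℝ α a / r) ≤ m a := fun a α hα =>
    Finset.le_sup' (fun α => nd (inner ℝ α a / r)) hα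
  have hm2 : ∀ a, ∃ α ∈ R, m a = nd (inner ℝ α a / r) := fun a =>
    Finset.exists_mem_eq_sup' hne (fun α => nd (inner ℝ α a / r))
  let M : V n → ℝ := fun a => r * m a
  have hM : ∀ a ∈ labels R δ r, 1 / 3 ≤ M a ∧ M a ≤ r := by
    intro a ha
    obtain ⟨α, hα, hαm⟩ := hm2 a
    constructor
    · have h1 := hnd n R hR r hr1 a (hl2 a ha) α hα
      rw [← hαm] at h1
      show 1 / 3 ≤ r * m a
      have h2 : (r : ℝ) * (1 / (3 * (r : ℝ))) = 1 / 3 := by field_simp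
      rw [← h2]
      exact mul_le_mul_of_nonneg_left h1 hrpos.le
    · show r * m a ≤ r
      rw [hαm]
      have := nd_le (inner ℝ α a / r)
      nlinarith
  have hcount : ∀ X : ℝ, 1 ≤ X → (((labels R δ r).filter fun a => M a ≤ X).card : ℝ) ≤ C2 * X ^ n := by
    intro X hX
    refine le_trans ?_ (hcnt r hr1 X hX)
    have : ((labels R δ r).filter fun a => M a ≤ X) ⊆
        ((labels R δ r).filter fun a => ∀ α ∈ R, (r : ℝ) * nd (inner ℝ α a / r) ≤ X) := by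
      intro a ha
      rw [Finset.mem_filter] at ha ⊢
      refine ⟨ha.1, fun α hα => le_trans ?_ ha.2⟩
      exact mul_le_mul_of_nonneg_left (hm1 a α hα) hrpos.le
    have h := Finset.card_le_card this
    have h' : (((labels R δ r).filter fun a => M a ≤ X).card : ℝ) ≤
      (((labels R δ r).filter fun a => ∀ α ∈ R, (r : ℝ) * nd (inner ℝ α a / r) ≤ X).card : ℝ) := by
      exact_mod_cast h
    refine le_trans h' (le_of_eq ?_)
    congr 2
  have hS := hdy r hr (V n) (labels R δ r) M hM hcount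
  have hG : ∀ a ∈ labels R δ r, ∀ b ∈ labels R δ r,
      G R r a b ≤ C1 * ((∑ B ∈ Ind R n, ∏ α ∈ B, (1 / (1 + (M a * nd (inner ℝ α b / r)) ^ 2))) +
      ∑ k ∈ range (n + 1), ∑ B₁ ∈ Ind R k, ∑ B₂ ∈ Ind R (n - k),
        (∏ β ∈ B₁, (1 / (r * nd (inner ℝ β b / r)) ^ 2)) *
          ∏ β ∈ B₂, (1 / (r * nd (inner ℝ β a / r)) ^ 2)) := by
    intro a ha b hb
    obtain ⟨α, hα, hαm⟩ := hm2 a
    have h1 := hV r hr1 a b (hl2 a ha) (hl2 b hb) α hα
    rw [← hαm] at h1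
    obtain ⟨F, hF⟩ : ∃ F : ℝ, F = (∑ B ∈ Ind R n, ∏ α ∈ B, (1 / (1 + (M a * nd (inner ℝ α b / r)) ^ 2))) +
      ∑ k ∈ range (n + 1), ∑ B₁ ∈ Ind R k, ∑ B₂ ∈ Ind R (n - k),
        (∏ β ∈ B₁, (1 / (r * nd (inner ℝ β b / r)) ^ 2)) *
          ∏ β ∈ B₂, (1 / (r * nd (inner ℝ β a / r)) ^ 2) := ⟨_, rfl⟩
    have hF0 : 0 ≤ F := by
      rw [hF]
      refine add_nonneg (Finset.sum_nonneg fun B _ => Finset.prod_nonneg fun α _ => by positivity)
        (Finset.sum_nonneg fun k _ => Finset.sum_nonneg fun B _ => Finset.sum_nonneg fun B' _ =>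
          mul_nonneg (Finset.prod_nonneg fun α _ => by positivity)
            (Finset.prod_nonneg fun α _ => by positivity))
    have h1' : ‖E R ((2 * Real.pi / r) • a) (b, 0)‖ ^ 2 ≤
        C1 * ((r : ℝ) ^ R.card * ∏ β ∈ R, (nd (inner ℝ β a / r) * nd (inner ℝ β b / r))) * F := by
      rw [hF]
      exact h1
    rw [← hF]
    have hndpos : ∀ c ∈ labels R δ r, ∀ γ ∈ R, 0 < nd (inner ℝ γ c / r) := by
      intro c hc γ hγ
      have := hnd n R hR r hr1 c (hl2 c hc) γ hγ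
      have h3 : (0 : ℝ) < 1 / (3 * (r : ℝ)) := by positivity
      linarith
    have hPpos : 0 < ∏ γ ∈ R, (nd (inner ℝ γ a / r) * nd (inner ℝ γ b / r)) :=
      Finset.prod_pos (fun γ hγ => mul_pos (hndpos a ha γ hγ) (hndpos b hb γ hγ))
    have hPle : ∏ γ ∈ R, (nd (inner ℝ γ a / r) * nd (inner ℝ γ b / r)) ≤
        ∏ α ∈ R, (|Real.sin (Real.pi * (inner ℝ α a / r))| *
          |Real.sin (Real.pi * (inner ℝ α b / r))|) := by
      apply Finset.prod_le_prod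
      · intro γ hγ
        exact mul_nonneg (nd_nonneg _) (nd_nonneg _)
      · intro γ hγ
        exact mul_le_mul (nd_le_sin _) (nd_le_sin _) (nd_nonneg _) (abs_nonneg _)
    have hrR : 0 < (r : ℝ) ^ R.card := by positivity
    unfold G
    have hD : 0 < (r : ℝ) ^ R.card * ∏ α ∈ R, (|Real.sin (Real.pi * (inner ℝ α a / r))| *
          |Real.sin (Real.pi * (inner ℝ α b / r))|) :=
      mul_pos hrR (lt_of_lt_of_le hPpos hPle)
    rw [div_le_iff₀ hD]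
    refine le_trans h1' ?_
    have h5 : C1 * ((r : ℝ) ^ R.card * ∏ β ∈ R, (nd (inner ℝ β a / r) * nd (inner ℝ β b / r))) * F =
        C1 * F * ((r : ℝ) ^ R.card * ∏ β ∈ R, (nd (inner ℝ β a / r) * nd (inner ℝ β b / r))) := by ring
    rw [h5]
    exact mul_le_mul_of_nonneg_left (mul_le_mul_of_nonneg_left hPle hrR.le) (mul_nonneg hC1 hF0)
  have hF1 : ∑ a ∈ labels R δ r, ∑ b ∈ labels R δ r, ∑ B ∈ Ind R n,
      ∏ α ∈ B, (1 / (1 + (M a * nd (inner ℝ α b / r)) ^ 2)) ≤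
        ((Ind R n).card : ℝ) * C4 * C6 * ((r : ℝ) ^ n * Real.log r) := by
    calc ∑ a ∈ labels R δ r, ∑ b ∈ labels R δ r, ∑ B ∈ Ind R n,
          ∏ α ∈ B, (1 / (1 + (M a * nd (inner ℝ α b / r)) ^ 2))
        ≤ ∑ a ∈ labels R δ r, ((Ind R n).card : ℝ) * (C4 * (r / M a) ^ n) := by
          refine Finset.sum_le_sum fun a ha => ?_
          rw [Finset.sum_comm, ← nsmul_eq_mul]
          refine Finset.sum_le_card_nsmul _ _ _ fun B hB => ?_
          exact h4 r hr1 (M a) (by linarith [(hM a ha).1]) (hM a ha).2 B hB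
      _ = ((Ind R n).card : ℝ) * C4 * ∑ a ∈ labels R δ r, (r / M a) ^ n := by
          rw [Finset.mul_sum]
          exact Finset.sum_congr rfl fun a _ => by ring
      _ ≤ ((Ind R n).card : ℝ) * C4 * (C6 * ((r : ℝ) ^ n * Real.log r)) :=
          mul_le_mul_of_nonneg_left hS (by positivity)
      _ = ((Ind R n).card : ℝ) * C4 * C6 * ((r : ℝ) ^ n * Real.log r) := by ring
  have hF2 : ∑ a ∈ labels R δ r, ∑ b ∈ labels R δ r, ∑ k ∈ range (n + 1), ∑ B₁ ∈ Ind R k,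
      ∑ B₂ ∈ Ind R (n - k), (∏ β ∈ B₁, (1 / (r * nd (inner ℝ β b / r)) ^ 2)) *
        ∏ β ∈ B₂, (1 / (r * nd (inner ℝ β a / r)) ^ 2) ≤ K * (r : ℝ) ^ n := by
    rw [exch (labels R δ r) (range (n + 1)) (fun k => Ind R k) (fun k => Ind R (n - k))
      (fun B x => ∏ β ∈ B, (1 / (r * nd (inner ℝ β x / r)) ^ 2)), hK, Finset.sum_mul]
    refine Finset.sum_le_sum fun k hk => ?_
    have hk' : k ≤ n := by
      have := Finset.mem_range.1 hk
      omega
    rw [Finset.sum_mul]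
    refine Finset.sum_le_sum fun B₁ hB₁ => ?_
    rw [Finset.sum_mul]
    refine Finset.sum_le_sum fun B₂ hB₂ => ?_
    have e1 := h5 r hr1 k hk' B₁ hB₁
    have e2 := h5 r hr1 (n - k) (Nat.sub_le n k) B₂ hB₂
    have e3 : n - (n - k) = k := by omega
    rw [e3] at e2
    have e4 : (r : ℝ) ^ (n - k) * (r : ℝ) ^ k = (r : ℝ) ^ n := by
      rw [← pow_add]
      congr 1
      omega
    calc _ ≤ (C5 * (r : ℝ) ^ (n - k)) * (C5 * (r : ℝ) ^ k) :=
          mul_le_mul e1 e2 (Finset.sum_nonneg fun a _ => Finset.prod_nonneg fun α _ => by positivity)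
            (by positivity)
      _ = C5 * C5 * ((r : ℝ) ^ (n - k) * (r : ℝ) ^ k) := by ring
      _ = C5 * C5 * (r : ℝ) ^ n := by rw [e4]
  have hlog : Real.log 2 ≤ Real.log r := Real.log_le_log (by norm_num) (by exact_mod_cast hr)
  have hF3 : K * (r : ℝ) ^ n ≤ K / Real.log 2 * ((r : ℝ) ^ n * Real.log r) := by
    have h6 : K * (r : ℝ) ^ n = K / Real.log 2 * ((r : ℝ) ^ n * Real.log 2) := by
      field_simp
    rw [h6]
    exact mul_le_mul_of_nonneg_left (mul_le_mul_of_nonneg_left hlog (by positivity))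
      (div_nonneg hK0 hlog2.le)
  calc ∑ a ∈ labels R δ r, ∑ b ∈ labels R δ r, G R r a b
      ≤ ∑ a ∈ labels R δ r, ∑ b ∈ labels R δ r,
          C1 * ((∑ B ∈ Ind R n, ∏ α ∈ B, (1 / (1 + (M a * nd (inner ℝ α b / r)) ^ 2))) +
          ∑ k ∈ range (n + 1), ∑ B₁ ∈ Ind R k, ∑ B₂ ∈ Ind R (n - k),
            (∏ β ∈ B₁, (1 / (r * nd (inner ℝ β b / r)) ^ 2)) *
              ∏ β ∈ B₂, (1 / (r * nd (inner ℝ β a / r)) ^ 2)) :=
        Finset.sum_le_sum (fun a ha => Finset.sum_le_sum (fun b hb => hG a ha b hb))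
    _ = C1 * ((∑ a ∈ labels R δ r, ∑ b ∈ labels R δ r, ∑ B ∈ Ind R n,
          ∏ α ∈ B, (1 / (1 + (M a * nd (inner ℝ α b / r)) ^ 2))) +
        ∑ a ∈ labels R δ r, ∑ b ∈ labels R δ r, ∑ k ∈ range (n + 1), ∑ B₁ ∈ Ind R k,
          ∑ B₂ ∈ Ind R (n - k), (∏ β ∈ B₁, (1 / (r * nd (inner ℝ β b / r)) ^ 2)) *
            ∏ β ∈ B₂, (1 / (r * nd (inner ℝ β a / r)) ^ 2)) := by
        rw [← Finset.sum_add_distrib, Finset.mul_sum]
        refine Finset.sum_congr rfl fun a _ => ?_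
        rw [← Finset.sum_add_distrib, Finset.mul_sum]
    _ ≤ C1 * (((Ind R n).card : ℝ) * C4 * C6 * ((r : ℝ) ^ n * Real.log r) +
          K / Real.log 2 * ((r : ℝ) ^ n * Real.log r)) :=
        mul_le_mul_of_nonneg_left (add_le_add hF1 (hF2.trans hF3)) hC1
    _ = C1 * (((Ind R n).card : ℝ) * C4 * C6 + K / Real.log 2) * ((r : ℝ) ^ n * Real.log r) := by ring

end H391.AE.Q_up1
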