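import Mathlib
import Pool.Agent.H391.AE.S2

set_option autoImplicit false

open Finset
open scoped InnerProductSpace

namespace H391.AE.Q_upp

open H391.AE

theorem main : S_up1 → S_sup → S_upp := by
  intro hup hsup n R hR δ hδ p hp
  obtain ⟨C1, hC1, h1⟩ := hup n R hR δ hδ
  obtain ⟨C, hC, h2⟩ := hsup n R hR δ hδ
  refine ⟨C ^ (p - 1) * C1, by positivity, ?_⟩
  intro r hr
  have hr1 : 1 ≤ r := by omega
  have hG : ∀ a ∈ labels R δ r, ∀ b ∈ labels R δ r,
      G R r a b ^ p ≤ C ^ (p - 1) * G R r a b := by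
    intro a ha b hb
    obtain ⟨h0, hle⟩ := h2 r hr1 a ha b hb
    have hpe : p = (p - 1) + 1 := by omega
    calc G R r a b ^ p = G R r a b ^ (p - 1) * G R r a b := by
          conv_lhs => rw [hpe, pow_succ]
      _ ≤ C ^ (p - 1) * G R r a b :=
          mul_le_mul_of_nonneg_right (pow_le_pow_left₀ h0 hle _) h0
  calc ∑ a ∈ labels R δ r, ∑ b ∈ labels R δ r, G R r a b ^ p
      ≤ ∑ a ∈ labels R δ r, ∑ b ∈ labels R δ r, C ^ (p - 1) * G R r a b :=
        Finset.sum_le_sum (fun a ha => Finset.sum_le_sum (fun b hb => hG a ha b hb))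
    _ = C ^ (p - 1) * ∑ a ∈ labels R δ r, ∑ b ∈ labels R δ r, G R r a b := by
        rw [Finset.mul_sum]
        exact Finset.sum_congr rfl (fun a _ => by rw [Finset.mul_sum])
    _ ≤ C ^ (p - 1) * (C1 * ((r : ℝ) ^ n * Real.log r)) :=
        mul_le_mul_of_nonneg_left (h1 r hr) (by positivity)
    _ = C ^ (p - 1) * C1 * ((r : ℝ) ^ n * Real.log r) := by ring

end H391.AE.Q_upp
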